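import Pool.Agent.GK71.Cov

/-!
# A section that avoids a row, and two changes in a sum
-/

open Finset

set_option autoImplicit false
set_option linter.unusedSectionVars false

namespace Pool.Agent.V98

open Pool.Agent.Rl45 Pool.Agent.GK71

variable {R V S : Type*} [Fintype R] [DecidableEq R] [Fintype V] [DecidableEq V]
  [Fintype S] [DecidableEq S]

variable {a : R → V → S} {C A : Finset (R × V)} {N : ℕ}

/-- Among more than `|V|` covered cells of a column one lies in a section that avoids the row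
`c₀`. -/
theorem exists_good (h : Cov a N C) (hA : A ⊆ C) {v : V} (hv : ∀ e ∈ A, e.2 = v)
    (hc : Fintype.card V < A.card) (c₀ : R) :
    ∃ f ∈ A, ∃ X N', X ⊆ C ∧ f ∈ X ∧ Sec a X ∧ N = N' + 1 ∧ Cov a N' (C \ X) ∧
      ∀ q ∈ X, q.1 ≠ c₀ := by
  classical
  obtain ⟨T, h1, h2, h3, h4⟩ := h
  have key : ∃ f ∈ A, ∃ i, T i f.2 = f.1 ∧ ∀ v', T i v' ≠ c₀ := by
    by_contra hcon
    push Not at hcon
    have h5 : ∀ f : A, ∃ v', ∃ i, T i (f : R × V).2 = (f : R × V).1 ∧ T i v' = c₀ := by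
      intro f
      obtain ⟨i, hi⟩ := (h4 f).1 (hA f.2)
      obtain ⟨v', hv'⟩ := hcon f f.2 i hi
      exact ⟨v', i, hi, hv'⟩
    choose φ ψ h6 h7 using h5
    have h8 : Function.Injective φ := by
      intro f f' hff
      have h9 : ψ f = ψ f' := h3 (φ f) _ _ ((h7 f).trans (hff ▸ (h7 f').symm))
      have h10 : (f : R × V).2 = (f' : R × V).2 := (hv _ f.2).trans (hv _ f'.2).symm
      refine Subtype.ext (Prod.ext ?_ h10)
      rw [← h6 f, ← h6 f', h9, h10]
    have h9 := Fintype.card_le_of_injective φ h8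
    rw [Fintype.card_coe] at h9
    omega
  obtain ⟨f, hf, i, hi, hi'⟩ := key
  obtain ⟨N', rfl⟩ : ∃ N', N = N' + 1 := by
    rcases N with _ | N'
    · exact i.elim0
    · exact ⟨N', rfl⟩
  refine ⟨f, hf, cells (T i), N', ?_, mem_cells.2 hi, sec_cells (h1 i) (h2 i), rfl, ?_, ?_⟩
  · intro e' he'
    exact (h4 e').2 ⟨i, mem_cells.1 he'⟩
  · refine ⟨fun j => T (i.succAbove j), fun j => h1 _, fun j => h2 _, ?_, ?_⟩
    · intro v j j' h5
      exact Fin.succAbove_right_injective (h3 v _ _ h5)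
    · intro e'
      rw [mem_sdiff, h4, mem_cells]
      constructor
      · rintro ⟨⟨j, hj⟩, h5⟩
        have h6 : j ≠ i := by
          rintro rfl
          exact h5 hj
        obtain ⟨j', hj'⟩ := Fin.exists_succAbove_eq h6
        refine ⟨j', ?_⟩
        change T (i.succAbove j') e'.2 = e'.1
        rw [hj']
        exact hj
      · rintro ⟨j, hj⟩
        refine ⟨⟨_, hj⟩, ?_⟩
        intro h5
        have h6 := h3 e'.2 _ _ (hj.trans h5.symm)
        exact Fin.succAbove_ne i j h6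
  · intro q hq
    rw [← mem_cells.1 hq]
    exact hi' q.2

/-- Two values of a function are changed. -/
theorem sum_two (f f' : R → ℕ) {c₀ c₁ : R} (hne : c₀ ≠ c₁)
    (h : ∀ c, c ≠ c₀ → c ≠ c₁ → f' c = f c) (φ : ℕ → ℕ) :
    (∑ c, φ (f' c)) + φ (f c₀) + φ (f c₁) = (∑ c, φ (f c)) + φ (f' c₀) + φ (f' c₁) := by
  have e1 : ∀ F : R → ℕ, ∑ c, φ (F c) =
      φ (F c₀) + (φ (F c₁) + ∑ c ∈ (univ.erase c₀).erase c₁, φ (F c)) := by
    intro F
    rw [← add_sum_erase univ (fun c => φ (F c)) (mem_univ c₀),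
      ← add_sum_erase (univ.erase c₀) (fun c => φ (F c)) (mem_erase.2 ⟨hne.symm, mem_univ c₁⟩)]
  have e2 : ∑ c ∈ (univ.erase c₀).erase c₁, φ (f' c) =
      ∑ c ∈ (univ.erase c₀).erase c₁, φ (f c) := by
    refine sum_congr rfl fun c hc => ?_
    rw [mem_erase, mem_erase] at hc
    rw [h c hc.2.1 hc.1]
  rw [e1 f, e1 f', e2]
  omega

end Pool.Agent.V98
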