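import Pool.Agent.V98.Ext
import Pool.Agent.V98.Good

/-!
# The phases of the process

The single transitions are hypotheses here.
-/

open Finset

set_option autoImplicit false
set_option linter.unusedSectionVars false

namespace Pool.Agent.V98

open Pool.Agent.Rl45 Pool.Agent.GK71 Pool.Agent.FZ86

variable {R V S ι : Type*} [Fintype R] [DecidableEq R] [Fintype V] [DecidableEq V]
  [Fintype S] [DecidableEq S] [DecidableEq ι]

variable {a : R → V → S} {Lc : Finset (R × V)} {pr : ι → V → R} {M : Finset ι} {P : Finset S}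
  {ρ r R₀ R₁ c : ℕ} {x y : Dt R V S ι}

/-- An exchange is possible in a state that is not stuck. -/
def HEx (a : R → V → S) (Lc : Finset (R × V)) (pr : ι → V → R) (M : Finset ι)
    (P : Finset S) (R₀ : ℕ) : Prop :=
  ∀ (x : Dt R V S ι) (r : ℕ) (i : ι), Ext a Lc pr M P (R₀ + 3) r x → 3 < x.QQ.card →
    i ∈ x.QQ → ¬ Stuck a Lc pr x.D x.H x.nm x.W i →
    ∃ y : Dt R V S ι, Ext a Lc pr M P R₀ r y ∧ y.H ∩ Lc ⊆ x.H ∩ Lc ∧
      (y.H ∩ Lc).card < (x.H ∩ Lc).card ∧ (∀ e ∈ y.H ∩ Lc, y.nm e = x.nm e) ∧ y.W = x.W ∧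
      y.E ⊆ x.E ∧ x.QQ.card ≤ y.QQ.card + 3

/-- A cell gets a new name. -/
def HNm (a : R → V → S) (Lc : Finset (R × V)) (pr : ι → V → R) (M : Finset ι)
    (P : Finset S) (R₀ : ℕ) : Prop :=
  ∀ (x : Dt R V S ι) (r : ℕ) (e : R × V) (z : S), Ext a Lc pr M P (R₀ + 3) (r + 1) x →
    e ∈ x.H ∩ Lc → x.nm e ∉ x.W → z ∈ x.W → z ∉ P →
    (∀ e' ∈ x.H, e'.1 = e.1 → x.nm e' ≠ z) →
    ∃ y : Dt R V S ι, Ext a Lc pr M P R₀ r y ∧ y.H ∩ Lc = x.H ∩ Lc ∧
      y.nm = Function.update x.nm e z ∧ y.W = x.W ∧ x.QQ.card ≤ y.QQ.card + 1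

/-- Two old cells are swapped. -/
def HSw (a : R → V → S) (Lc : Finset (R × V)) (pr : ι → V → R) (M : Finset ι)
    (P : Finset S) (R₀ : ℕ) : Prop :=
  ∀ (x : Dt R V S ι) (r N' : ℕ) (e e' : R × V) (X : Finset (R × V)),
    Ext a Lc pr M P (R₀ + 3) (r + 2) x → e ∈ x.H ∩ Lc → e ∉ x.E → x.nm e ∉ P →
    e' ∈ x.C → e' ∈ Lc → e'.2 = e.2 → sm a e' ∉ P → X ⊆ x.C → e' ∈ X → Sec a X →
    x.N = N' + 1 → Cov a N' (x.C \ X) → (∀ q ∈ X, q.1 ≠ e.1) →
    (∀ q ∈ x.H, q.1 = e'.1 → x.nm q ≠ sm a e') →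
    ∃ y : Dt R V S ι, Ext a Lc pr M P R₀ r y ∧
      y.H ∩ Lc = insert e' ((x.H ∩ Lc).erase e) ∧ y.nm = x.nm ∧ y.W = x.W ∧ y.E = x.E ∧
      x.QQ.card ≤ y.QQ.card + 2

/-- Every state leads to a stuck state. -/
theorem reach (hc : Ctx a Lc pr) (hex : HEx a Lc pr M P R₀) (hr : r ≤ R₀ + 1) (m : ℕ) :
    ∀ x : Dt R V S ι, (x.H ∩ Lc).card ≤ m → Ext a Lc pr M P (R₀ + 3) r x →
      Bud Lc (R₀ + 3) c x →
      ∃ (y : Dt R V S ι) (i : ι), Ext a Lc pr M P (R₀ + 3) r y ∧ i ∈ y.QQ ∧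
        Stuck a Lc pr y.D y.H y.nm y.W i ∧ y.H ∩ Lc ⊆ x.H ∩ Lc ∧
        (∀ e ∈ y.H ∩ Lc, y.nm e = x.nm e) ∧ x.W ⊆ y.W ∧
        y.E ⊆ x.E ∧ Bud Lc (R₀ + 3) c y := by
  classical
  induction m with
  | zero =>
    intro x hm h hb
    obtain ⟨i, hi⟩ := Bud.nonempty h hb
    by_cases hs : Stuck a Lc pr x.D x.H x.nm x.W i
    · exact ⟨x, i, h, hi, hs, subset_refl _, fun _ _ => rfl, subset_refl _, subset_refl _, hb⟩
    · obtain ⟨y, -, -, h1, -⟩ := hex x r i h (by have := Bud.lt h hb; omega) hi hs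
      omega
  | succ m ih =>
    intro x hm h hb
    obtain ⟨i, hi⟩ := Bud.nonempty h hb
    by_cases hs : Stuck a Lc pr x.D x.H x.nm x.W i
    · exact ⟨x, i, h, hi, hs, subset_refl _, fun _ _ => rfl, subset_refl _, subset_refl _, hb⟩
    · obtain ⟨y, h1, h2, h3, h4, h5, h6, h7⟩ := hex x r i h
        (by have := Bud.lt h hb; omega) hi hs
      have hb' := hb
      unfold Bud at hb'
      have h8 := card_bb_mono (Lc := Lc) h2 h4 h5.ge
      obtain ⟨z, g1, g2, g3, g4, g5, g6, -⟩ := h1.close (R₁ := R₀ + 3) hc hr (by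
        rw [h5]
        omega)
      have h9 := card_bb_mono (Lc := Lc) (x := y) (y := z) (by rw [g2])
        (fun _ _ => by rw [g3]) g5
      obtain ⟨w, j, k1, k2, k3, k4, k5, k6, k7, k8⟩ := ih z (by rw [g2]; omega) g1 (by
        unfold Bud
        rw [g2]
        rw [h5] at g6
        omega)
      refine ⟨w, j, k1, k2, k3, ?_, fun e he => ?_, ?_, ?_, k8⟩
      · rw [g2] at k4
        exact k4.trans h2
      · rw [k5 e he, g3]
        rw [g2] at k4
        exact h4 e (k4 he)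
      · rw [← h5]
        exact g5.trans k6
      · rw [g4] at k7
        exact k7.trans h6

open Classical in
/-- the number of uncovered old cells of the row `c` with names outside `P` -/
noncomputable def uc (Lc : Finset (R × V)) (P : Finset S) (x : Dt R V S ι) (c : R) : ℕ :=
  ((x.H ∩ Lc).filter fun e => e.1 = c ∧ x.nm e ∉ P).card

open Classical in
/-- the number of uncovered old cells of the row `c` with names outside `W` -/
noncomputable def bc (Lc : Finset (R × V)) (x : Dt R V S ι) (c : R) : ℕ :=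
  ((x.H ∩ Lc).filter fun e => e.1 = c ∧ x.nm e ∉ x.W).card

theorem uc_mono {x y : Dt R V S ι} (hH : y.H ∩ Lc ⊆ x.H ∩ Lc)
    (hnm : ∀ e ∈ y.H ∩ Lc, y.nm e = x.nm e) (c : R) : uc Lc P y c ≤ uc Lc P x c := by
  classical
  refine card_le_card ?_
  intro e he
  rw [mem_filter] at he ⊢
  rw [hnm e he.1] at he
  exact ⟨hH he.1, he.2⟩

/-- A name for a cell of a bad row. -/
theorem exists_name (hc : Ctx a Lc pr) (h : Ext a Lc pr M P ρ r x) {c : R}
    (hu : uc Lc P x c + P.card ≤ Fintype.card V + 1)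
    (hb : Fintype.card V + 1 < bc Lc x c + x.W.card) :
    ∃ e ∈ x.H ∩ Lc, x.nm e ∉ x.W ∧ ∃ z ∈ x.W, z ∉ P ∧ ∀ e' ∈ x.H, e'.1 = e.1 → x.nm e' ≠ z := by
  classical
  have hW := h.Wn
  have h0 : 0 < bc Lc x c := by omega
  unfold bc at h0
  obtain ⟨e, he⟩ := card_pos.1 h0
  rw [mem_filter] at he
  have heL := (mem_inter.1 he.1).2
  refine ⟨e, he.1, he.2.2, ?_⟩
  set Z := ((x.H ∩ Lc).filter fun e => e.1 = c ∧ x.nm e ∈ x.W ∧ x.nm e ∉ P).image x.nm with hZ
  have h1 : uc Lc P x c = bc Lc x c +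
      ((x.H ∩ Lc).filter fun e => e.1 = c ∧ x.nm e ∈ x.W ∧ x.nm e ∉ P).card := by
    unfold uc bc
    rw [← card_union_of_disjoint]
    · congr 1
      ext q
      simp only [mem_filter, mem_union]
      constructor
      · rintro ⟨h1, h2, h3⟩
        by_cases h4 : x.nm q ∈ x.W
        · exact Or.inr ⟨h1, h2, h4, h3⟩
        · exact Or.inl ⟨h1, h2, h4⟩
      · rintro (⟨h1, h2, h3⟩ | ⟨h1, h2, h3, h4⟩)
        · exact ⟨h1, h2, fun h5 => h3 (h.PW h5)⟩
        · exact ⟨h1, h2, h4⟩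
    · rw [disjoint_left]
      intro q h1 h2
      rw [mem_filter] at h1 h2
      exact h1.2.2 h2.2.2.1
  have h2 : Z.card ≤
      ((x.H ∩ Lc).filter fun e => e.1 = c ∧ x.nm e ∈ x.W ∧ x.nm e ∉ P).card := card_image_le
  have h3 : (x.W \ P).card + P.card = x.W.card := card_sdiff_add_card_eq_card h.PW
  obtain ⟨z, hz, hz'⟩ := exists_mem_notMem_of_card_lt_card (s := Z) (t := x.W \ P) (by omega)
  rw [mem_sdiff] at hz
  refine ⟨z, hz.1, hz.2, ?_⟩
  intro e' he' h4 h5
  have h6 : e' ∈ Lc := by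
    by_contra h7
    have h8 := Sta.eq_of_private hc h.sta he' h7 (mem_inter.1 he.1).1 h4.symm
    exact h7 (h8 ▸ heL)
  apply hz'
  rw [hZ, mem_image]
  refine ⟨e', mem_filter.2 ⟨mem_inter.2 ⟨he', h6⟩, h4.trans he.2.1, ?_, ?_⟩, h5⟩
  · rw [h5]
    exact hz.1
  · rw [h5]
    exact hz.2

/-- The last phase. -/
theorem phase3 (hc : Ctx a Lc pr) (hex : HEx a Lc pr M P R₀) (hnm : HNm a Lc pr M P R₀)
    (m : ℕ) : ∀ (x : Dt R V S ι) (r : ℕ), r ≤ R₀ + 1 → Ext a Lc pr M P (R₀ + 3) r x →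
      (bb Lc x).card ≤ m → m ≤ r → (∀ c, uc Lc P x c + P.card ≤ Fintype.card V + 1) →
      Bud Lc (R₀ + 3) 0 x →
      ∃ (y : Dt R V S ι) (r : ℕ) (i : ι), Ext a Lc pr M P (R₀ + 3) r y ∧ i ∈ y.QQ ∧
        Stuck a Lc pr y.D y.H y.nm y.W i ∧
        ∀ c, bc Lc y c + y.W.card ≤ Fintype.card V + 1 := by
  classical
  induction m with
  | zero =>
    intro x r hr h hm hmr hu hb
    obtain ⟨y, i, h1, h2, h3, h4, h5, h6, h7, h8⟩ := reach hc hex hr _ x le_rfl h hb
    refine ⟨y, r, i, h1, h2, h3, fun c => ?_⟩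
    have h9 := card_bb_mono h4 h5 h6
    have h10 : bc Lc y c ≤ (bb Lc y).card := by
      refine card_le_card ?_
      intro e he
      unfold bb
      rw [mem_filter] at he ⊢
      exact ⟨he.1, he.2.2⟩
    have := h1.Wn
    omega
  | succ m ih =>
    intro x r hr h hm hmr hu hb
    obtain ⟨y, i, h1, h2, h3, h4, h5, h6, h7, h8⟩ := reach hc hex hr _ x le_rfl h hb
    have h9 := card_bb_mono h4 h5 h6
    have hu' : ∀ c, uc Lc P y c + P.card ≤ Fintype.card V + 1 := fun c =>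
      (Nat.add_le_add_right (uc_mono h4 h5 c) _).trans (hu c)
    by_cases hrow : ∀ c, bc Lc y c + y.W.card ≤ Fintype.card V + 1
    · exact ⟨y, r, i, h1, h2, h3, hrow⟩
    · push Not at hrow
      obtain ⟨c, hc'⟩ := hrow
      obtain ⟨e, he, heW, z, hz, hzP, hze⟩ := exists_name hc h1 (hu' c) hc'
      obtain ⟨r', rfl⟩ : ∃ r', r = r' + 1 := ⟨r - 1, by omega⟩
      obtain ⟨w, g1, g2, g3, g4, g5⟩ := hnm y r' e z h1 he heW hz hzP hze
      have hb1 : (bb Lc w).card < (bb Lc y).card := by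
        refine card_lt_card ⟨?_, ?_⟩
        · intro q hq
          unfold bb at hq ⊢
          rw [mem_filter, g2, g3, g4] at hq
          rw [mem_filter]
          refine ⟨hq.1, ?_⟩
          by_cases hqe : q = e
          · rw [hqe]
            exact heW
          · rw [Function.update_of_ne hqe] at hq
            exact hq.2
        · intro hsub
          have h10 : e ∈ bb Lc y := by
            unfold bb
            exact mem_filter.2 ⟨he, heW⟩
          have h11 := hsub h10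
          unfold bb at h11
          rw [mem_filter, g3, Function.update_self, g4] at h11
          exact h11.2 hz
      have hb8 := h8
      unfold Bud at hb8
      obtain ⟨u, k1, k2, k3, k4, k5, k6, -⟩ := g1.close (R₁ := R₀ + 3) hc (by omega) (by
        rw [g4]
        omega)
      have hb2 := card_bb_mono (Lc := Lc) (x := w) (y := u) (by rw [k2])
        (fun _ _ => by rw [k3]) k5
      refine ih u r' (by omega) k1 (by omega) (by omega) ?_ ?_
      · intro c'
        have h10 : uc Lc P u c' ≤ uc Lc P y c' := by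
          unfold uc
          rw [k2, k3, g2, g3]
          refine card_le_card ?_
          intro q hq
          rw [mem_filter] at hq ⊢
          refine ⟨hq.1, hq.2.1, ?_⟩
          by_cases hqe : q = e
          · rw [hqe]
            exact fun h11 => heW (h1.PW h11)
          · rw [Function.update_of_ne hqe] at hq
            exact hq.2.2
        exact (Nat.add_le_add_right h10 _).trans (hu' c')
      · unfold Bud
        rw [k2, g2]
        rw [g4] at k6
        omega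

end Pool.Agent.V98
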