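import Pool.Agent.V98.Phase2
import Pool.Agent.GK71.Wrap

/-!
# The process without hypotheses on the transitions
-/

open Finset

set_option autoImplicit false
set_option linter.unusedSectionVars false

namespace Pool.Agent.V98

open Pool.Agent.Rl45 Pool.Agent.GK71 Pool.Agent.FZ86

variable {R V S ι : Type*} [Fintype R] [DecidableEq R] [Fintype V] [DecidableEq V]
  [Fintype S] [DecidableEq S] [DecidableEq ι]

variable {a : R → V → S} {Lc : Finset (R × V)} {pr : ι → V → R} {M : Finset ι} {P : Finset S}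
  {R₀ d₀ : ℕ} {x : Dt R V S ι}

/-- From a start to the final family. -/
theorem run (hc : Ctx a Lc pr) (hR : 3 * Fintype.card V ≤ R₀ + 1) (hV : 0 < Fintype.card V)
    {Jp : Finset V} (hrich : Rich a Lc P Jp d₀)
    (h : Ext a Lc pr M P (R₀ + 3) (3 * Fintype.card V) x) (h2 : Ph2 a Lc P Jp d₀ x)
    (hb : Bud Lc (R₀ + 3) (3 * Fintype.card V) x) (v : V) :
    ∃ (N' : ℕ) (C' : Finset (R × V)), Cov a N' C' ∧ C' ⊆ Lc ∪ prs pr M ∧
      N' + (Fintype.card V - 1) = (Lc.filter fun e => e.2 = v).card + M.card :=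
  process hc (fun _ r _ h h3 hi hs => ext_exch hc r h hi h3 hs) (ext_name hc) (ext_swap hc) hR hV
    hrich h h2 hb v

end Pool.Agent.V98
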