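import Pool.Agent.V98.Driver

/-!
# The second phase: swaps
-/

open Finset

set_option autoImplicit false
set_option linter.unusedSectionVars false

namespace Pool.Agent.V98

open Pool.Agent.Rl45 Pool.Agent.GK71 Pool.Agent.FZ86

variable {R V S ι : Type*} [Fintype R] [DecidableEq R] [Fintype V] [DecidableEq V]
  [Fintype S] [DecidableEq S] [DecidableEq ι]

variable {a : R → V → S} {Lc : Finset (R × V)} {pr : ι → V → R} {M : Finset ι} {P : Finset S}
  {ρ r R₀ R₁ c d₀ : ℕ} {x y : Dt R V S ι}

/-- The conditions of the second phase: `Jp` are the poor columns. -/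
structure Ph2 (a : R → V → S) (Lc : Finset (R × V)) (P : Finset S) (Jp : Finset V) (d₀ : ℕ)
    (x : Dt R V S ι) : Prop where
  nEP : ∀ e ∈ x.E, x.nm e ∈ P
  colL : ∀ v, ((x.H ∩ Lc).filter fun e => e.2 = v).card ≤ d₀
  poor : ∀ c, ((x.H ∩ Lc).filter fun e => e.1 = c ∧ x.nm e ∉ P ∧ e.2 ∈ Jp).card + P.card ≤
    Fintype.card V + 1

/-- the non-poor columns contain many old cells with symbols outside `P` -/
def Rich (a : R → V → S) (Lc : Finset (R × V)) (P : Finset S) (Jp : Finset V) (d₀ : ℕ) : Prop :=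
  ∀ v ∉ Jp, d₀ + 2 * Fintype.card V < (Lc.filter fun e => e.2 = v ∧ sm a e ∉ P).card

/-- The excess. -/
noncomputable def psi (Lc : Finset (R × V)) (P : Finset S) (t : ℕ) (x : Dt R V S ι) : ℕ :=
  ∑ c, (uc Lc P x c + P.card - t)

/-- The two cells that will be swapped. -/
theorem exists_pair (h : Ext a Lc pr M P ρ r x) {Jp : Finset V}
    (h2 : Ph2 a Lc P Jp d₀ x) (hrich : Rich a Lc P Jp d₀)
    (hψ : psi Lc P (Fintype.card V) x ≤ Fintype.card V) {c₀ : R}
    (hc₀ : Fintype.card V + 1 < uc Lc P x c₀ + P.card) :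
    ∃ e ∈ x.H ∩ Lc, e.1 = c₀ ∧ e ∉ x.E ∧ x.nm e ∉ P ∧ e.2 ∉ Jp ∧
      ∃ e' ∈ x.C, e' ∈ Lc ∧ e'.2 = e.2 ∧ sm a e' ∉ P ∧
        uc Lc P x e'.1 + P.card ≤ Fintype.card V ∧
        ∃ X N', X ⊆ x.C ∧ e' ∈ X ∧ Sec a X ∧ x.N = N' + 1 ∧ Cov a N' (x.C \ X) ∧
          ∀ q ∈ X, q.1 ≠ e.1 := by
  classical
  -- the cell `e`
  have h3 := h2.poor c₀
  have h4 : ((x.H ∩ Lc).filter fun e => e.1 = c₀ ∧ x.nm e ∉ P ∧ e.2 ∈ Jp).card <
      ((x.H ∩ Lc).filter fun e => e.1 = c₀ ∧ x.nm e ∉ P).card := by
    unfold uc at hc₀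
    omega
  obtain ⟨e, he, he'⟩ := exists_mem_notMem_of_card_lt_card h4
  rw [mem_filter] at he he'
  obtain ⟨heH, rfl, heP⟩ := he
  have heJ : e.2 ∉ Jp := fun h5 => he' ⟨heH, rfl, heP, h5⟩
  refine ⟨e, heH, rfl, fun h5 => heP (h2.nEP e h5), heP, heJ, ?_⟩
  -- the candidates
  set A := Lc.filter fun f => f.2 = e.2 ∧ sm a f ∉ P with hA
  have h5 : d₀ + 2 * Fintype.card V < A.card := hrich e.2 heJ
  have h6 : A.card ≤ (A \ x.H).card + ((x.H ∩ Lc).filter fun f => f.2 = e.2).card := by
    refine (card_le_card ?_).trans (card_union_le _ _)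
    intro f hf
    have hf' := hf
    rw [hA, mem_filter] at hf'
    by_cases h7 : f ∈ x.H
    · exact mem_union_right _ (mem_filter.2 ⟨mem_inter.2 ⟨h7, hf'.1⟩, hf'.2.1⟩)
    · exact mem_union_left _ (mem_sdiff.2 ⟨hf, h7⟩)
  have h7 := h2.colL e.2
  set A₂ := (A \ x.H).filter fun f => uc Lc P x f.1 + P.card ≤ Fintype.card V with hA₂
  have h8 : (A \ x.H).card ≤ A₂.card + psi Lc P (Fintype.card V) x := by
    have h9 : (A \ x.H).card = A₂.card +
        ((A \ x.H).filter fun f => ¬ uc Lc P x f.1 + P.card ≤ Fintype.card V).card :=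
      (card_filter_add_card_filter_not _).symm
    have h10 : ((A \ x.H).filter fun f => ¬ uc Lc P x f.1 + P.card ≤ Fintype.card V).card ≤
        ((univ : Finset R).filter fun c => Fintype.card V < uc Lc P x c + P.card).card := by
      refine card_le_card_of_injOn Prod.fst ?_ ?_
      · intro f hf
        rw [mem_coe, mem_filter] at hf ⊢
        exact ⟨mem_univ _, not_le.1 hf.2⟩
      · intro f hf f' hf' hff
        rw [mem_coe, mem_filter, mem_sdiff, hA, mem_filter] at hf hf'
        exact Prod.ext hff (hf.1.1.2.1.trans hf'.1.1.2.1.symm)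
    have h11 : ((univ : Finset R).filter fun c =>
        Fintype.card V < uc Lc P x c + P.card).card ≤ psi Lc P (Fintype.card V) x := by
      unfold psi
      rw [card_eq_sum_ones, sum_filter]
      refine sum_le_sum fun c _ => ?_
      split_ifs <;> omega
    omega
  have h9 : Fintype.card V < A₂.card := by omega
  have hmem : ∀ f ∈ A₂, f ∈ Lc ∧ f.2 = e.2 ∧ sm a f ∉ P ∧ f ∉ x.H ∧
      uc Lc P x f.1 + P.card ≤ Fintype.card V := by
    intro f hf
    rw [hA₂, mem_filter, mem_sdiff, hA, mem_filter] at hf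
    exact ⟨hf.1.1.1, hf.1.1.2.1, hf.1.1.2.2, hf.1.2, hf.2⟩
  have hsub : A₂ ⊆ x.C := by
    intro f hf
    obtain ⟨g1, -, -, g4, -⟩ := hmem f hf
    have h10 : f ∈ x.C ∪ x.H := by
      rw [h.sta.un]
      exact mem_union_left _ g1
    rcases mem_union.1 h10 with h11 | h11
    · exact h11
    · exact absurd h11 g4
  obtain ⟨f, hf, X, N', k1, k2, k3, k4, k5, k6⟩ := exists_good h.sta.cov hsub
    (fun f hf => (hmem f hf).2.1) h9 e.1
  obtain ⟨g1, g2, g3, g4, g5⟩ := hmem f hf
  exact ⟨f, hsub hf, g1, g2, g3, g5, X, N', k1, k2, k3, k4, k5, k6⟩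

/-- The second phase. -/
theorem phase2 (hc : Ctx a Lc pr) (hsw : HSw a Lc pr M P R₀) {Jp : Finset V}
    (hrich : Rich a Lc P Jp d₀) (m : ℕ) : ∀ (x : Dt R V S ι) (r : ℕ), r ≤ R₀ + 1 →
      Ext a Lc pr M P (R₀ + 3) r x → Ph2 a Lc P Jp d₀ x →
      psi Lc P (Fintype.card V + 1) x ≤ m → psi Lc P (Fintype.card V) x ≤ Fintype.card V →
      Fintype.card V + 2 * m ≤ r → Bud Lc (R₀ + 3) (c + 3 * m) x →
      ∃ y : Dt R V S ι, Ext a Lc pr M P (R₀ + 3) (Fintype.card V) y ∧
        (∀ c, uc Lc P y c + P.card ≤ Fintype.card V + 1) ∧ Bud Lc (R₀ + 3) c y := by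
  classical
  induction m with
  | zero =>
    intro x r hr h h2 hm hψ hmr hb
    refine ⟨x, ⟨h.sta, h.PW, h.qW, h.slk, h.nE, h.pool, ?_, h.nD, h.Wn⟩, ?_, by simpa using hb⟩
    · intro z hz hzP
      exact le_trans (by omega) (h.res z hz hzP)
    · intro c'
      have h3 : uc Lc P x c' + P.card - (Fintype.card V + 1) ≤ psi Lc P (Fintype.card V + 1) x :=
        single_le_sum (f := fun c => uc Lc P x c + P.card - (Fintype.card V + 1))
          (fun _ _ => Nat.zero_le _) (mem_univ c')
      omega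
  | succ m ih =>
    intro x r hr h h2 hm hψ hmr hb
    by_cases hall : ∀ c, uc Lc P x c + P.card ≤ Fintype.card V + 1
    · refine ⟨x, ⟨h.sta, h.PW, h.qW, h.slk, h.nE, h.pool, ?_, h.nD, h.Wn⟩, hall, ?_⟩
      · intro z hz hzP
        exact le_trans (by omega) (h.res z hz hzP)
      · unfold Bud at hb ⊢
        omega
    · push Not at hall
      obtain ⟨c₀, hc₀⟩ := hall
      obtain ⟨e, he, rfl, heE, heP, heJ, e', he'C, he'L, he'2, he'P, hu', X, N', k1, k2, k3, k4,
        k5, k6⟩ := exists_pair h h2 hrich hψ hc₀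
      obtain ⟨r', rfl⟩ : ∃ r', r = r' + 2 := ⟨r - 2, by omega⟩
      have heH := (mem_inter.1 he).1
      have heL := (mem_inter.1 he).2
      have he'H : e' ∉ x.H := fun h3 => (disjoint_left.1 h.sta.dj) he'C h3
      have he'E : e' ∉ x.E := fun h3 => he'H (h.sta.EH h3)
      have hnm' : x.nm e' = sm a e' := h.sta.nmE e' he'E
      have hne : e.1 ≠ e'.1 := by
        intro h3
        rw [← h3] at hu'
        omega
      obtain ⟨y, g1, g2, g3, g4, g5, g6⟩ := hsw x r' N' e e' X h he heE heP he'C he'L he'2 he'P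
        k1 k2 k3 k4 k5 k6 (by
          intro q hq h3 h4
          by_cases h5 : q ∈ x.E
          · exact he'P (h4 ▸ h2.nEP q h5)
          · rw [h.sta.nmE q h5] at h4
            unfold sm at h4
            rw [h3] at h4
            have h6 := hc.lat _ h4
            exact he'H ((Prod.ext h3 h6 : q = e') ▸ hq))
      -- the numbers `uc`
      have u0 : uc Lc P y e.1 + 1 = uc Lc P x e.1 := by
        have h3 : ((y.H ∩ Lc).filter fun q => q.1 = e.1 ∧ y.nm q ∉ P) =
            ((x.H ∩ Lc).filter fun q => q.1 = e.1 ∧ x.nm q ∉ P).erase e := by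
          ext q
          rw [g2, g3]
          simp only [mem_filter, mem_erase, mem_insert]
          constructor
          · rintro ⟨rfl | h3, h4, h5⟩
            · exact absurd h4.symm hne
            · exact ⟨h3.1, h3.2, h4, h5⟩
          · rintro ⟨h3, h4, h5, h6⟩
            exact ⟨Or.inr ⟨h3, h4⟩, h5, h6⟩
        unfold uc
        rw [h3]
        exact card_erase_add_one (mem_filter.2 ⟨he, rfl, heP⟩)
      have u1 : uc Lc P y e'.1 = uc Lc P x e'.1 + 1 := by
        have h3 : ((y.H ∩ Lc).filter fun q => q.1 = e'.1 ∧ y.nm q ∉ P) =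
            insert e' ((x.H ∩ Lc).filter fun q => q.1 = e'.1 ∧ x.nm q ∉ P) := by
          ext q
          rw [g2, g3]
          simp only [mem_filter, mem_erase, mem_insert]
          constructor
          · rintro ⟨rfl | h3, h4, h5⟩
            · exact Or.inl rfl
            · exact Or.inr ⟨h3.2, h4, h5⟩
          · rintro (rfl | ⟨h3, h4, h5⟩)
            · exact ⟨Or.inl rfl, rfl, by rw [hnm']; exact he'P⟩
            · refine ⟨Or.inr ⟨?_, h3⟩, h4, h5⟩
              rintro rfl
              exact hne h4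
        unfold uc
        rw [h3, card_insert_of_notMem]
        intro h4
        exact he'H (mem_inter.1 (mem_filter.1 h4).1).1
      have u2 : ∀ c, c ≠ e.1 → c ≠ e'.1 → uc Lc P y c = uc Lc P x c := by
        intro c hc1 hc2
        unfold uc
        congr 1
        ext q
        rw [g2, g3]
        simp only [mem_filter, mem_erase, mem_insert]
        constructor
        · rintro ⟨rfl | h3, h4, h5⟩
          · exact absurd h4.symm hc2
          · exact ⟨h3.2, h4, h5⟩
        · rintro ⟨h3, h4, h5⟩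
          refine ⟨Or.inr ⟨?_, h3⟩, h4, h5⟩
          rintro rfl
          exact hc1 h4.symm
      have hψ1 : psi Lc P (Fintype.card V + 1) y ≤ m := by
        have h3 := sum_two (uc Lc P x) (uc Lc P y) hne u2
          (fun u => u + P.card - (Fintype.card V + 1))
        unfold psi at hm ⊢
        omega
      have hψ2 : psi Lc P (Fintype.card V) y ≤ Fintype.card V := by
        have h3 := sum_two (uc Lc P x) (uc Lc P y) hne u2
          (fun u => u + P.card - Fintype.card V)
        unfold psi at hψ ⊢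
        omega
      have hb' := hb
      unfold Bud at hb'
      have hcH : (y.H ∩ Lc).card = (x.H ∩ Lc).card := by
        rw [g2, card_insert_of_notMem, card_erase_add_one he]
        intro h3
        exact he'H (mem_inter.1 (mem_of_mem_erase h3)).1
      have hbb : (bb Lc y).card ≤ (bb Lc x).card + 1 := by
        refine (card_le_card (t := insert e' (bb Lc x)) ?_).trans (card_insert_le _ _)
        intro q hq
        unfold bb at hq ⊢
        rw [mem_filter, g2, g3, g4] at hq
        rw [mem_insert, mem_filter]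
        rcases mem_insert.1 hq.1 with h3 | h3
        · exact Or.inl h3
        · exact Or.inr ⟨mem_of_mem_erase h3, hq.2⟩
      obtain ⟨z, l1, l2, l3, l4, l5, l6, -⟩ := g1.close (R₁ := R₀ + 3) hc (by omega) (by
        rw [g4]
        omega)
      have hbz := card_bb_mono (Lc := Lc) (x := y) (y := z) (by rw [l2])
        (fun _ _ => by rw [l3]) l5
      have huz : ∀ c, uc Lc P z c = uc Lc P y c := by
        intro c
        unfold uc
        rw [l2, l3]
      have hψz : ∀ t, psi Lc P t z = psi Lc P t y := by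
        intro t
        unfold psi
        exact sum_congr rfl fun c _ => by rw [huz]
      refine ih z r' (by omega) l1 ⟨?_, ?_, ?_⟩ (by rw [hψz]; exact hψ1)
        (by rw [hψz]; exact hψ2) (by omega) ?_
      · intro q hq
        rw [l4, g5] at hq
        rw [l3, g3]
        exact h2.nEP q hq
      · intro v
        rw [l2, g2]
        refine le_trans ?_ (h2.colL v)
        by_cases hv : e.2 = v
        · have h3 : ((insert e' ((x.H ∩ Lc).erase e)).filter fun q => q.2 = v) =
              insert e' (((x.H ∩ Lc).filter fun q => q.2 = v).erase e) := by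
            ext q
            simp only [mem_filter, mem_erase, mem_insert]
            constructor
            · rintro ⟨rfl | h3, h4⟩
              · exact Or.inl rfl
              · exact Or.inr ⟨h3.1, h3.2, h4⟩
            · rintro (rfl | ⟨h3, h4, h5⟩)
              · exact ⟨Or.inl rfl, he'2.trans hv⟩
              · exact ⟨Or.inr ⟨h3, h4⟩, h5⟩
          rw [h3]
          refine (card_insert_le _ _).trans ?_
          rw [card_erase_add_one (mem_filter.2 ⟨he, hv⟩)]
        · refine card_le_card ?_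
          intro q hq
          simp only [mem_filter, mem_erase, mem_insert] at hq ⊢
          rcases hq with ⟨rfl | h3, h4⟩
          · exact absurd (he'2.symm.trans h4) hv
          · exact ⟨h3.2, h4⟩
      · intro c
        rw [l2, g2, l3, g3]
        refine le_trans (Nat.add_le_add_right (card_le_card ?_) _) (h2.poor c)
        intro q hq
        simp only [mem_filter, mem_erase, mem_insert] at hq ⊢
        rcases hq with ⟨rfl | h3, h4, h5, h6⟩
        · rw [he'2] at h6
          exact absurd h6 heJ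
        · exact ⟨h3.2, h4, h5, h6⟩
      · unfold Bud
        rw [l2, hcH]
        rw [g4] at l6
        omega

/-- From a stuck state to the second phase. -/
theorem psi_le (h : Ext a Lc pr M P ρ r x) (hb : (bb Lc x).card ≤ Fintype.card V) :
    psi Lc P (Fintype.card V) x ≤ Fintype.card V := by
  classical
  refine le_trans ?_ hb
  have h1 : (bb Lc x).card = ∑ c : R, bc Lc x c := by
    rw [card_eq_sum_card_fiberwise (f := Prod.fst) (t := univ) (fun _ _ => mem_univ _)]
    refine sum_congr rfl fun c _ => ?_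
    unfold bc bb
    rw [filter_filter]
    congr 1
    refine filter_congr fun q _ => ?_
    constructor
    · exact fun h => ⟨h.2, h.1⟩
    · exact fun h => ⟨h.2, h.1⟩
  rw [h1]
  unfold psi
  refine sum_le_sum fun c _ => ?_
  -- names in `W \ P` of the row `c`
  have h2 : uc Lc P x c ≤ bc Lc x c + (x.W \ P).card := by
    have h3 : uc Lc P x c ≤ bc Lc x c +
        ((x.H ∩ Lc).filter fun e => e.1 = c ∧ x.nm e ∈ x.W ∧ x.nm e ∉ P).card := by
      unfold uc bc
      refine (card_le_card ?_).trans (card_union_le _ _)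
      intro q hq
      simp only [mem_filter, mem_union] at hq ⊢
      by_cases h4 : x.nm q ∈ x.W
      · exact Or.inr ⟨hq.1, hq.2.1, h4, hq.2.2⟩
      · exact Or.inl ⟨hq.1, hq.2.1, h4⟩
    refine h3.trans (Nat.add_le_add_left ?_ _)
    refine card_le_card_of_injOn x.nm ?_ ?_
    · intro q hq
      rw [mem_coe, mem_filter] at hq
      rw [mem_coe, mem_sdiff]
      exact ⟨hq.2.2.1, hq.2.2.2⟩
    · intro q hq q' hq' hqq
      rw [mem_coe, mem_filter] at hq hq'
      exact h.sta.lat q (mem_inter.1 hq.1).1 q' (mem_inter.1 hq'.1).1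
        (hq.2.1.trans hq'.2.1.symm) hqq
  have h3 : (x.W \ P).card + P.card = x.W.card := card_sdiff_add_card_eq_card h.PW
  have h4 := h.Wn
  omega

/-- The whole process. -/
theorem process (hc : Ctx a Lc pr) (hex : HEx a Lc pr M P R₀) (hnm : HNm a Lc pr M P R₀)
    (hsw : HSw a Lc pr M P R₀) (hR : 3 * Fintype.card V ≤ R₀ + 1) (hV : 0 < Fintype.card V)
    {Jp : Finset V} (hrich : Rich a Lc P Jp d₀)
    (h : Ext a Lc pr M P (R₀ + 3) (3 * Fintype.card V) x) (h2 : Ph2 a Lc P Jp d₀ x)
    (hb : Bud Lc (R₀ + 3) (3 * Fintype.card V) x) (v : V) :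
    ∃ (N' : ℕ) (C' : Finset (R × V)), Cov a N' C' ∧ C' ⊆ Lc ∪ prs pr M ∧
      N' + (Fintype.card V - 1) = (Lc.filter fun e => e.2 = v).card + M.card := by
  classical
  obtain ⟨y, i, g1, g2, g3, g4, g5, g6, g7, g8⟩ := reach hc hex hR _ x le_rfl h hb
  have hDy : 0 < y.D := lt_of_lt_of_le hV g1.nD
  have hby : (bb Lc y).card ≤ Fintype.card V := Sta.stuck hc g1.sta hDy g3
  have hψ := psi_le g1 hby
  have hψ1 : psi Lc P (Fintype.card V + 1) y ≤ Fintype.card V :=
    le_trans (sum_le_sum fun c _ => Nat.sub_le_sub_left (Nat.le_succ _) _) hψ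
  have h2y : Ph2 a Lc P Jp d₀ y := by
    refine ⟨?_, ?_, ?_⟩
    · intro e he
      rw [g5 e (mem_inter.2 ⟨g1.sta.EH he, g1.sta.EL he⟩)]
      exact h2.nEP e (g7 he)
    · exact fun v => (card_le_card (filter_subset_filter _ g4)).trans (h2.colL v)
    · intro c
      refine (Nat.add_le_add_right (card_le_card ?_) _).trans (h2.poor c)
      intro e he
      rw [mem_filter] at he ⊢
      rw [g5 e he.1] at he
      exact ⟨g4 he.1, he.2⟩
  obtain ⟨z, k1, k2, k3⟩ := phase2 (c := 0) hc hsw hrich (Fintype.card V) y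
    (3 * Fintype.card V) hR g1 h2y hψ1 hψ (by omega) (by
      rw [Nat.zero_add]
      exact g8)
  obtain ⟨w, j, l1, l2, l3, l4, l5, l6, l7, l8⟩ := reach hc hex (by omega) _ z le_rfl k1 k3
  have hDw : 0 < w.D := lt_of_lt_of_le hV l1.nD
  have hbw : (bb Lc w).card ≤ Fintype.card V := Sta.stuck hc l1.sta hDw l3
  obtain ⟨u, r', i', m1, m2, m3, m4⟩ := phase3 hc hex hnm (Fintype.card V) w (Fintype.card V)
    (by omega) l1 hbw le_rfl
    (fun c => (Nat.add_le_add_right (uc_mono l4 l5 c) _).trans (k2 c)) l8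
  exact Sta.final hc m1.sta hV m1.nD (m1.qW i' m2) m3 (by
    intro c
    have h5 := m4 c
    unfold bc at h5
    convert h5) v

end Pool.Agent.V98
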