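import Pool.Agent.V98.Match
import Pool.Agent.GK71.Sta
import Pool.Agent.FZ86.Close

/-!
# The configuration of a pure row, stuck states
-/

open Finset

set_option autoImplicit false
set_option linter.unusedSectionVars false

namespace Pool.Agent.V98

open Pool.Agent.Rl45 Pool.Agent.GK71

variable {R V S ι : Type*} [Fintype R] [DecidableEq R] [Fintype V] [DecidableEq V]
  [Fintype S] [DecidableEq S] [DecidableEq ι]

/-- the column of a symbol of `W` in the section `t` -/
noncomputable def ndw (a : R → V → S) (W : Finset S) (t : V → R) (y : S) : Option V :=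
  if y ∈ W then nod a t y else none

variable {a : R → V → S} {W : Finset S} {t : V → R}

theorem ndw_eq_some (ht : ∀ v v', a (t v) v = a (t v') v' → v = v') {y : S} {v : V} :
    ndw a W t y = some v ↔ y ∈ W ∧ a (t v) v = y := by
  unfold ndw
  split_ifs with h
  · rw [nod_eq_some ht]
    exact ⟨fun h1 => ⟨h, h1⟩, fun h1 => h1.2⟩
  · constructor
    · intro h1
      cases h1
    · exact fun h1 => absurd h1.1 h

theorem ndw_of_notMem {y : S} (h : y ∉ W) : ndw a W t y = none := by
  unfold ndw
  rw [if_neg h]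

theorem ndw_eq_none (ht : ∀ v v', a (t v) v = a (t v') v' → v = v')
    (hW : ∀ y ∈ W, ∃ v, a (t v) v = y) {y : S} : ndw a W t y = none ↔ y ∉ W := by
  constructor
  · intro h hy
    obtain ⟨v, hv⟩ := hW y hy
    have := (ndw_eq_some (W := W) ht).2 ⟨hy, hv⟩
    rw [h] at this
    cases this
  · exact ndw_of_notMem

/-- the columns of the section `t` with symbols outside `W` -/
def uw (a : R → V → S) (W : Finset S) (t : V → R) : Finset V :=
  univ.filter fun v => a (t v) v ∉ W

theorem card_uw (ht : ∀ v v', a (t v) v = a (t v') v' → v = v')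
    (hW : ∀ y ∈ W, ∃ v, a (t v) v = y) : (uw a W t).card + W.card = Fintype.card V := by
  have hinj : Function.Injective fun v => a (t v) v := fun v v' h => ht v v' h
  have h1 : (univ.filter fun v => ¬ a (t v) v ∉ W).card = W.card := by
    rw [← card_image_of_injective _ hinj]
    congr 1
    ext y
    rw [mem_image]
    constructor
    · rintro ⟨v, hv, rfl⟩
      exact not_not.1 (mem_filter.1 hv).2
    · intro hy
      obtain ⟨v, hv⟩ := hW y hy
      exact ⟨v, mem_filter.2 ⟨mem_univ _, by rw [hv]; exact not_not.2 hy⟩, hv⟩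
  have h2 := card_filter_add_card_filter_not (s := (univ : Finset V)) (fun v => a (t v) v ∉ W)
  rw [card_univ] at h2
  unfold uw
  omega

variable {Lc : Finset (R × V)} {pr : ι → V → R} {M : Finset ι} {N D : ℕ}
  {UU QQ RR J : Finset ι} {C H E : Finset (R × V)} {nm : R × V → S} {par : R × V → ι} {i : ι}

theorem Sta.H_sub (h : Sta a Lc pr M N D UU QQ RR C H E nm par) : H ⊆ Lc ∪ prs pr UU := by
  rw [← h.un]
  exact subset_union_right

theorem Sta.eq_of_private (hc : Ctx a Lc pr) (h : Sta a Lc pr M N D UU QQ RR C H E nm par)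
    {e e' : R × V} (he : e ∈ H) (hL : e ∉ Lc) (he' : e' ∈ H) (h1 : e'.1 = e.1) : e' = e := by
  rcases mem_union.1 (Sta.H_sub h he) with h2 | h2
  · exact absurd h2 hL
  · obtain ⟨i, hi, h3⟩ := mem_prs.1 h2
    exact (hc.row h3 (Sta.H_sub h he') h1).1

theorem Sta.prv_sub (hc : Ctx a Lc pr) (h : Sta a Lc pr M N D UU QQ RR C H E nm par) :
    H \ Lc ⊆ Fr H := by
  intro e he
  rw [mem_sdiff] at he
  exact mem_Fr.2 ⟨he.1, fun e' he' h1 => Sta.eq_of_private hc h he.1 he.2 he' h1⟩

/-- the configuration of a pure row -/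
theorem Sta.bc (hc : Ctx a Lc pr) (h : Sta a Lc pr M N D UU QQ RR C H E nm par) (W : Finset S)
    (i : ι) : BC H nm (ndw a W (pr i)) D (uw a W (pr i)) := by
  have ht := hc.sec i
  refine ⟨h.col, h.deg, h.lat, ?_, ?_⟩
  · intro y y' v h1 h2
    rw [ndw_eq_some ht] at h1 h2
    exact h1.2.symm.trans h2.2
  · intro v hv e _ h1
    rw [ndw_eq_some ht] at h1
    unfold uw at hv
    rw [mem_filter] at hv
    exact hv.2 (h1.2 ▸ h1.1)

/-- there is no exchange with the pure row `i` -/
def Stuck (a : R → V → S) (Lc : Finset (R × V)) (pr : ι → V → R) (D : ℕ) (H : Finset (R × V))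
    (nm : R × V → S) (W : Finset S) (i : ι) : Prop :=
  NoEx H (H \ Lc) (hed nm (ndw a W (pr i))) (sl H nm (ndw a W (pr i)) D)

/-- In a stuck state there are few uncovered old cells with names outside `W`. -/
theorem Sta.stuck (hc : Ctx a Lc pr) (h : Sta a Lc pr M N D UU QQ RR C H E nm par) (hD : 0 < D)
    (hN : Stuck a Lc pr D H nm W i) :
    ((H ∩ Lc).filter fun e => nm e ∉ W).card ≤ Fintype.card V := by
  have h1 := (Sta.bc hc h W i).hub_le hD (Sta.prv_sub hc h) hN
  refine (card_le_card ?_).trans h1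
  intro e he
  rw [mem_filter, mem_inter] at he
  rw [mem_filter, mem_sdiff, mem_sdiff]
  exact ⟨⟨he.1.1, fun h2 => h2.2 he.1.2⟩, ndw_of_notMem he.2⟩

/-- In a stuck state with few hub cells in every row, many disjoint transversals consist of private
uncovered cells. -/
theorem Sta.many (hc : Ctx a Lc pr) (h : Sta a Lc pr M N D UU QQ RR C H E nm par)
    (hV : 0 < Fintype.card V) (hW : ∀ y ∈ W, ∃ v, a (pr i v) v = y)
    (hN : Stuck a Lc pr D H nm W i)
    (hrow : ∀ c, ((H ∩ Lc).filter fun e => e.1 = c ∧ nm e ∉ W).card + W.card ≤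
      Fintype.card V + 1)
    (s : ℕ) (hs : D = Fintype.card V - 1 + s) :
    ∃ F ⊆ H, Cov a s F := by
  have ht := hc.sec i
  have hcw := card_uw ht hW
  obtain ⟨ρ', h1, h2, h3, -, -⟩ := BC.many hV s H (H \ Lc) D hs (Sta.bc hc h W i) (by
      intro r
      by_cases hr : ∃ e ∈ H, e ∉ Lc ∧ e.1 = r
      · obtain ⟨e₀, he₀, hL, rfl⟩ := hr
        refine le_trans ?_ (Nat.le_add_left 1 _)
        rw [card_le_one]
        intro e he e' he'
        rw [mem_filter] at he he'
        rw [Sta.eq_of_private hc h he₀ hL he.1 he.2.1,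
          Sta.eq_of_private hc h he₀ hL he'.1 he'.2.1]
      · push Not at hr
        have h4 := hrow r
        have h5 : (H.filter fun e => e.1 = r ∧ ndw a W (pr i) (nm e) = none).card ≤
            ((H ∩ Lc).filter fun e => e.1 = r ∧ nm e ∉ W).card := by
          refine card_le_card ?_
          intro e he
          rw [mem_filter] at he
          rw [mem_filter, mem_inter]
          refine ⟨⟨he.1, ?_⟩, he.2.1, (ndw_eq_none ht hW).1 he.2.2⟩
          by_contra hL
          exact hr e he.1 hL he.2.1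
        omega) (Sta.prv_sub hc h) hN
  have hH : ∀ j v, (ρ' j v, v) ∈ H := fun j v => (mem_sdiff.1 (h1 j v)).1
  have hL : ∀ j v, (ρ' j v, v) ∉ Lc := fun j v => (mem_sdiff.1 (h1 j v)).2
  refine ⟨univ.image fun p : Fin s × V => (ρ' p.1 p.2, p.2), ?_, ρ', ?_, ?_, ?_, ?_⟩
  · intro e he
    obtain ⟨p, -, rfl⟩ := mem_image.1 he
    exact hH p.1 p.2
  · intro j v v' h4
    have h5 := Sta.eq_of_private hc h (hH j v) (hL j v) (hH j v') h4.symm
    exact (congrArg Prod.snd h5).symm
  · intro j v v' h4
    apply h2 j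
    have h5 := h.nmE _ (fun h6 => hL j v (h.EL h6))
    have h6 := h.nmE _ (fun h6 => hL j v' (h.EL h6))
    simp only
    rw [h5, h6]
    exact h4
  · intro v j j' h4
    exact h3 v h4
  · intro e
    rw [mem_image]
    constructor
    · rintro ⟨p, -, rfl⟩
      exact ⟨p.1, rfl⟩
    · rintro ⟨j, hj⟩
      exact ⟨(j, e.2), mem_univ _, Prod.ext hj rfl⟩

theorem Ctx.cov_prs (hc : Ctx a Lc pr) (J : Finset ι) : Cov a J.card (prs pr J) := by
  classical
  induction J using Finset.induction_on with
  | empty =>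
    rw [card_empty]
    exact Cov.zero
  | @insert i J hi ih =>
    rw [card_insert_of_notMem hi, prs_insert, union_comm]
    refine ih.add (hc.sec_pr i) ?_
    rw [disjoint_left]
    intro e he he'
    obtain ⟨j, hj, h1⟩ := mem_prs.1 he
    have h2 := mem_cells.1 he'
    exact hi ((hc.inj j e.2 i e.2 (h1.trans h2.symm)).1 ▸ hj)

/-- The end of the process. -/
theorem Sta.final (hc : Ctx a Lc pr) (h : Sta a Lc pr M N D UU QQ RR C H E nm par)
    (hV : 0 < Fintype.card V) (hD : Fintype.card V ≤ D)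
    (hW : ∀ y ∈ W, ∃ v, a (pr i v) v = y) (hN : Stuck a Lc pr D H nm W i)
    (hrow : ∀ c, ((H ∩ Lc).filter fun e => e.1 = c ∧ nm e ∉ W).card + W.card ≤
      Fintype.card V + 1) (v : V) :
    ∃ (N' : ℕ) (C' : Finset (R × V)), Cov a N' C' ∧ C' ⊆ Lc ∪ prs pr M ∧
      N' + (Fintype.card V - 1) = (Lc.filter fun e => e.2 = v).card + M.card := by
  classical
  obtain ⟨F, hF, hcF⟩ := Sta.many hc h hV hW hN hrow (D - (Fintype.card V - 1)) (by omega)
  have hcnt := h.count hc v
  have hM : (M \ UU).card + UU.card = M.card := card_sdiff_add_card_eq_card h.UM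
  refine ⟨N + (D - (Fintype.card V - 1)) + (M \ UU).card, (C ∪ F) ∪ prs pr (M \ UU), ?_, ?_, ?_⟩
  · refine (h.cov.union hcF ?_).union (Ctx.cov_prs hc _) ?_
    · exact h.dj.mono_right hF
    · rw [disjoint_left]
      intro e he he'
      obtain ⟨j, hj, h1⟩ := mem_prs.1 he'
      rw [mem_sdiff] at hj
      rcases mem_union.1 he with h2 | h2
      · exact h.notMem_C hc hj.2 h1 h2
      · exact h.notMem_H hc hj.2 h1 (hF h2)
  · intro e he
    have key : ∀ e ∈ C ∪ H, e ∈ Lc ∪ prs pr M := by
      intro e he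
      rw [h.un] at he
      rcases mem_union.1 he with h1 | h1
      · exact mem_union_left _ h1
      · obtain ⟨j, hj, h2⟩ := mem_prs.1 h1
        exact mem_union_right _ (mem_prs.2 ⟨j, h.UM hj, h2⟩)
    rcases mem_union.1 he with h1 | h1
    · rcases mem_union.1 h1 with h1 | h1
      · exact key e (mem_union_left _ h1)
      · exact key e (mem_union_right _ (hF h1))
    · obtain ⟨j, hj, h2⟩ := mem_prs.1 h1
      exact mem_union_right _ (mem_prs.2 ⟨j, (mem_sdiff.1 hj).1, h2⟩)
  · omega

end Pool.Agent.V98
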