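import Pool.Agent.V98.Conf

/-!
# States together with their pool conditions
-/

open Finset

set_option autoImplicit false
set_option linter.unusedSectionVars false

namespace Pool.Agent.V98

open Pool.Agent.Rl45 Pool.Agent.GK71 Pool.Agent.FZ86

/-- the data of a state -/
structure Dt (R V S ι : Type*) where
  /-- number of sections -/
  N : ℕ
  /-- uncovered cells in every column -/
  D : ℕ
  /-- used pure rows -/
  UU : Finset ι
  /-- pool -/
  QQ : Finset ι
  /-- reserve -/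
  RR : Finset ι
  /-- covered cells -/
  C : Finset (R × V)
  /-- uncovered cells -/
  H : Finset (R × V)
  /-- false-named cells -/
  E : Finset (R × V)
  /-- names -/
  nm : R × V → S
  /-- partners -/
  par : R × V → ι
  /-- symbols in all rows of the pool -/
  W : Finset S

variable {R V S ι : Type*} [Fintype R] [DecidableEq R] [Fintype V] [DecidableEq V]
  [Fintype S] [DecidableEq S] [DecidableEq ι]

/-- the symbols of the pure rows -/
def pb (a : R → V → S) (pr : ι → V → R) : ι → V → S := fun i v => a (pr i v) v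

/-- A state with its pool conditions. -/
structure Ext (a : R → V → S) (Lc : Finset (R × V)) (pr : ι → V → R) (M : Finset ι)
    (P : Finset S) (ρ r : ℕ) (x : Dt R V S ι) : Prop where
  sta : Sta a Lc pr M x.N x.D x.UU x.QQ x.RR x.C x.H x.E x.nm x.par
  PW : P ⊆ x.W
  qW : ∀ i ∈ x.QQ, ∀ y ∈ x.W, ∃ v, a (pr i v) v = y
  slk : ∀ y ∉ x.W, (x.H.filter fun e => x.nm e = y).card < x.D
  nE : ∀ e ∈ x.E, x.nm e ∈ x.W
  pool : ∀ z ∉ x.W, ρ < (miss (pb a pr) x.QQ z).card
  res : ∀ z ∈ x.W, z ∉ P → r ≤ (miss (pb a pr) x.RR z).card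
  nD : Fintype.card V ≤ x.D
  Wn : x.W.card ≤ Fintype.card V

variable {a : R → V → S} {Lc : Finset (R × V)} {pr : ι → V → R} {M : Finset ι} {P : Finset S}
  {ρ r R₁ c : ℕ} {x : Dt R V S ι}

theorem pb_injective (hc : Ctx a Lc pr) (i : ι) : Function.Injective (pb a pr i) :=
  fun v v' h => hc.sec i v v' h

/-- Closing the pool of a state. -/
theorem Ext.close (hc : Ctx a Lc pr) (h : Ext a Lc pr M P ρ r x) (hr : r ≤ ρ + 1)
    (hQ : R₁ * (Fintype.card V + 1) < x.QQ.card + R₁ * x.W.card) :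
    ∃ y : Dt R V S ι, Ext a Lc pr M P R₁ r y ∧ y.H = x.H ∧ y.nm = x.nm ∧ y.E = x.E ∧
      x.W ⊆ y.W ∧ x.QQ.card + R₁ * x.W.card ≤ y.QQ.card + R₁ * y.W.card ∧ y.D = x.D := by
  classical
  have hW := h.Wn
  have e1 : R₁ * (Fintype.card V + 1) =
      R₁ * (Fintype.card V + 1 - x.W.card) + R₁ * x.W.card := by
    rw [← Nat.mul_add]
    congr 1
    omega
  obtain ⟨QQ', W', h1, h2, h3, h4, h5, h6, h7, h8⟩ := FZ86.close (pb a pr) (pb_injective hc)
    (R1 := R₁) (R0 := ρ + 1) (QQ := x.QQ) (RR := x.RR) (W := x.W) h.qW (by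
      intro z hz
      exact (h.pool z hz).trans_le (card_le_card (miss_mono subset_union_right z))) (by omega)
  have hRR : x.RR ∪ (x.QQ \ QQ') ⊆ x.RR ∪ x.QQ := union_subset_union_right sdiff_subset
  refine ⟨{ x with QQ := QQ', RR := x.RR ∪ (x.QQ \ QQ'), W := W' }, ?_, rfl, rfl, rfl, h2, h8,
    rfl⟩
  have hs := h.sta
  refine ⟨⟨hs.cov, hs.dj, hs.un, hs.col, hs.deg, hs.lat, hs.nmE, hs.EH, hs.EL, hs.parM, ?_,
    hs.parS, hs.parI, hs.UM, h1.trans hs.QM, ?_, hs.UQ.mono_right h1, ?_, ?_⟩,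
    h.PW.trans h2, h4, ?_, fun e he => h2 (h.nE e he), h5, ?_, h.nD, h3⟩
  · intro e he h9
    apply hs.parU e he
    simp only [mem_union, mem_sdiff] at h9 ⊢
    rcases h9 with (h9 | h9) | h9 | h9
    · exact Or.inl (Or.inl h9)
    · exact Or.inl (Or.inr (h1 h9))
    · exact Or.inr h9
    · exact Or.inl (Or.inr h9.1)
  · exact hRR.trans (union_subset hs.RM hs.QM)
  · refine Disjoint.mono_right hRR ?_
    rw [disjoint_union_right]
    exact ⟨hs.UR, hs.UQ⟩
  · rw [disjoint_union_right]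
    exact ⟨hs.QR.mono_left h1, disjoint_sdiff⟩
  · exact fun y hy => h.slk y (fun h9 => hy (h2 h9))
  · intro z hz hzP
    by_cases hzW : z ∈ x.W
    · exact (h.res z hzW hzP).trans (card_le_card (miss_mono subset_union_left z))
    · exact hr.trans (h6 z hz hzW)

/-- the uncovered old cells with names outside `W` -/
def bb (Lc : Finset (R × V)) (x : Dt R V S ι) : Finset (R × V) :=
  (x.H ∩ Lc).filter fun e => x.nm e ∉ x.W

/-- The budget. -/
def Bud (Lc : Finset (R × V)) (R₁ c : ℕ) (x : Dt R V S ι) : Prop :=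
  R₁ * (Fintype.card V + 1) + 3 * (x.H ∩ Lc).card + (bb Lc x).card + c <
    x.QQ.card + R₁ * x.W.card

theorem Bud.nonempty (h : Ext a Lc pr M P ρ r x) (hb : Bud Lc R₁ c x) : x.QQ.Nonempty := by
  rw [nonempty_iff_ne_empty]
  intro h0
  have h1 := hb
  unfold Bud at h1
  rw [h0, card_empty] at h1
  have h2 : R₁ * x.W.card ≤ R₁ * (Fintype.card V + 1) :=
    Nat.mul_le_mul_left _ (h.Wn.trans (Nat.le_succ _))
  omega

theorem Bud.lt (h : Ext a Lc pr M P ρ r x) (hb : Bud Lc R₁ c x) : R₁ < x.QQ.card := by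
  unfold Bud at hb
  have h2 : R₁ * x.W.card ≤ R₁ * Fintype.card V := Nat.mul_le_mul_left _ h.Wn
  rw [Nat.mul_add, Nat.mul_one] at hb
  omega

theorem card_bb_mono {x y : Dt R V S ι} (hH : y.H ∩ Lc ⊆ x.H ∩ Lc)
    (hnm : ∀ e ∈ y.H ∩ Lc, y.nm e = x.nm e)
    (hW : x.W ⊆ y.W) : (bb Lc y).card ≤ (bb Lc x).card := by
  refine card_le_card ?_
  intro e he
  unfold bb at he ⊢
  rw [mem_filter] at he ⊢
  rw [hnm e he.1] at he
  exact ⟨hH he.1, fun h => he.2 (hW h)⟩

end Pool.Agent.V98
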