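import Pool.Agent.Rl45.Match

/-!
# Configurations with a distinguished set of private cells

As in `Pool.Agent.Rl45.Match`, but the role of the free cells is played by an arbitrary set `Φ` of
cells that are alone in their rows.
-/

open Finset

set_option autoImplicit false
set_option linter.unusedSectionVars false

namespace Pool.Agent.V98

open Pool.Agent.Rl45

variable {R V S : Type*} [Fintype R] [DecidableEq R] [Fintype V] [DecidableEq V]
  [Fintype S] [DecidableEq S]

variable {H Φ : Finset (R × V)} {hd : R × V → Option V} {s : V → ℕ} {Q : Finset (Option V)}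

/-- If `Q` is a strong component of the digraph of `Φ` and `Q` is not blocked, some cell outside
`Φ` lies in a rainbow closed set. -/
theorem exists_closed_of_not_blocked (hΦ : Φ ⊆ Fr H)
    (hQ1 : ∀ u ∈ Q, ∀ u' ∈ Q, Rc Φ hd s u u')
    (hQ2 : ∀ q ∈ Q, ∀ q' ∈ Q, ∀ u, Rc Φ hd s q u → Rc Φ hd s u q' → u ∈ Q)
    (hB : ¬ Blocked H hd s Q) :
    ∃ C ⊆ H, (∃ e ∈ C, e ∉ Φ) ∧ CSet hd s C := by
  -- a rainbow set `W` with a closed walk through a vertex `u ∉ Q`
  have key : ∃ W ⊆ H, (∀ e ∈ W, ∀ e' ∈ W, e.1 = e'.1 → e = e') ∧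
      ∃ u, u ∉ Q ∧ (∃ q ∈ Q, Rc W hd s q u) ∧ (∃ q ∈ Q, Rc W hd s u q) ∧
      ∀ e ∈ W, (∃ q ∈ Q, Rc W hd s (hd e) q) ∧ ∃ q ∈ Q, Rc W hd s q (some e.2) := by
    by_contra hcon
    apply hB
    refine ⟨?_, ?_⟩
    · intro L x r h h1 h2 h3
      apply hcon
      obtain ⟨W, a1, a2, a3, ⟨q, hq, a4⟩, a5⟩ := h.exists_set
      have hsub : W ⊆ insert (r, x) W := subset_insert _ _
      have hlast : Rc (insert (r, x) W) hd s (some x) (hd (r, x)) :=
        Rc.of_cell (e := (r, x)) (mem_insert_self _ _)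
      refine ⟨insert (r, x) W, ?_, ?_, some x, h.notMem, ⟨q, hq, a4.mono hsub⟩,
        ⟨_, h3, hlast⟩, ?_⟩
      · intro e he
        rcases mem_insert.1 he with rfl | he
        · exact h1
        · exact a1 he
      · intro e he e' he' h4
        rcases mem_insert.1 he with rfl | he <;> rcases mem_insert.1 he' with rfl | he'
        · rfl
        · exact absurd (a2 e' he') (h4 ▸ h2)
        · exact absurd (a2 e he) (by rw [h4]; exact h2)
        · exact a3 e he e' he' h4
      · intro e he
        rcases mem_insert.1 he with rfl | he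
        · exact ⟨⟨_, h3, Rc.refl⟩, q, hq, a4.mono hsub⟩
        · obtain ⟨a6, q', hq', a7⟩ := a5 e he
          exact ⟨⟨_, h3, (a6.mono hsub).trans hlast⟩, q', hq', a7.mono hsub⟩
    · intro L v h h1 h3
      apply hcon
      obtain ⟨W, a1, a2, a3, ⟨q, hq, a4⟩, a5⟩ := h.exists_set
      have hlast : Rc W hd s none (some v) := Rc.of_arc (Arc.virt h1)
      exact ⟨W, a1, a3, none, h.notMem, ⟨q, hq, a4⟩, ⟨_, h3, hlast⟩,
        fun e he => ⟨⟨_, h3, (a5 e he).1.trans hlast⟩, (a5 e he).2⟩⟩
  obtain ⟨W, b1, b2, u, hu, ⟨q, hq, b3⟩, ⟨q', hq', b4⟩, b5⟩ := key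
  -- some cell of `W` is not in `Φ`
  have hex : ∃ e ∈ W, e ∉ Φ := by
    by_contra hcon
    push Not at hcon
    exact hu (hQ2 q hq q' hq' u (b3.mono hcon) (b4.mono hcon))
  obtain ⟨e₀, he₀, hf⟩ := hex
  obtain ⟨⟨q₁, hq₁, b6⟩, q₂, hq₂, b7⟩ := b5 e₀ he₀
  have hrb : ∀ e ∈ W ∪ Φ, ∀ e' ∈ W ∪ Φ, e.1 = e'.1 → e = e' := by
    intro e he e' he' h
    rw [mem_union] at he he'
    rcases he with he | he
    · rcases he' with he' | he'
      · exact b2 e he e' he' h
      · exact (mem_Fr.1 (hΦ he')).2 e (b1 he) h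
    · rcases he' with he' | he'
      · exact ((mem_Fr.1 (hΦ he)).2 e' (b1 he') h.symm).symm
      · exact (mem_Fr.1 (hΦ he')).2 e (Fr_subset (hΦ he)) h
  have hwalk : Rc (W ∪ Φ) hd s (hd e₀) (some e₀.2) :=
    ((b6.mono subset_union_left).trans ((hQ1 q₁ hq₁ q₂ hq₂).mono subset_union_right)).trans
      (b7.mono subset_union_left)
  obtain ⟨C, c1, c2, c3⟩ := exists_CSet hrb (mem_union_left _ he₀) hwalk
  refine ⟨C, c1.trans (union_subset b1 (hΦ.trans Fr_subset)), ⟨e₀, c2, hf⟩, c3⟩

/-- A cell inside a strong component of the digraph of `Φ` lies in `Φ`, or it lies in a rainbow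
closed set. -/
theorem exists_closed_of_inner (hΦ : Φ ⊆ Fr H) (hQ1 : ∀ u ∈ Q, ∀ u' ∈ Q, Rc Φ hd s u u')
    {e : R × V} (he : e ∈ H) (hf : e ∉ Φ) (h1 : some e.2 ∈ Q) (h2 : hd e ∈ Q) :
    ∃ C ⊆ H, (∃ e ∈ C, e ∉ Φ) ∧ CSet hd s C := by
  have hrb : ∀ e₁ ∈ insert e Φ, ∀ e₂ ∈ insert e Φ, e₁.1 = e₂.1 → e₁ = e₂ := by
    intro e₁ he₁ e₂ he₂ h
    rcases mem_insert.1 he₁ with h3 | h3 <;> rcases mem_insert.1 he₂ with h4 | h4
    · rw [h3, h4]
    · exact (mem_Fr.1 (hΦ h4)).2 e₁ (h3 ▸ he) h
    · exact ((mem_Fr.1 (hΦ h3)).2 e₂ (h4 ▸ he) h.symm).symm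
    · exact (mem_Fr.1 (hΦ h4)).2 e₁ (Fr_subset (hΦ h3)) h
  obtain ⟨C, c1, c2, c3⟩ := exists_CSet hrb (mem_insert_self _ _)
    ((hQ1 _ h2 _ h1).mono (subset_insert _ _))
  refine ⟨C, c1.trans ?_, ⟨e, c2, hf⟩, c3⟩
  intro e' he'
  rcases mem_insert.1 he' with rfl | he'
  · exact he
  · exact Fr_subset (hΦ he')

/-- the strong component of a vertex in the digraph of `Φ` -/
noncomputable def comp (Φ : Finset (R × V)) (hd : R × V → Option V) (s : V → ℕ) (u : Option V) :
    Finset (Option V) := by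
  classical
  exact Finset.univ.filter fun u' => Rc Φ hd s u u' ∧ Rc Φ hd s u' u

theorem mem_comp {u u' : Option V} :
    u' ∈ comp Φ hd s u ↔ Rc Φ hd s u u' ∧ Rc Φ hd s u' u := by
  unfold comp
  simp

theorem self_mem_comp (u : Option V) : u ∈ comp Φ hd s u := mem_comp.2 ⟨Rc.refl, Rc.refl⟩

theorem comp_eq {u u' : Option V} (h : u' ∈ comp Φ hd s u) : comp Φ hd s u' = comp Φ hd s u := by
  rw [mem_comp] at h
  ext x
  rw [mem_comp, mem_comp]
  constructor
  · exact fun h1 => ⟨h.1.trans h1.1, h1.2.trans h.2⟩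
  · exact fun h1 => ⟨h.2.trans h1.1, h1.2.trans h.1⟩

theorem mem_comp_iff {u u' : Option V} :
    u' ∈ comp Φ hd s u ↔ comp Φ hd s u' = comp Φ hd s u := by
  constructor
  · exact comp_eq
  · intro h
    rw [← h]
    exact self_mem_comp u'

theorem comp_conn {u x y : Option V} (hx : x ∈ comp Φ hd s u) (hy : y ∈ comp Φ hd s u) :
    Rc Φ hd s x y := by
  rw [mem_comp] at hx hy
  exact hx.2.trans hy.1

theorem comp_conv {u x y z : Option V} (hx : x ∈ comp Φ hd s u) (hy : y ∈ comp Φ hd s u)
    (h1 : Rc Φ hd s x z) (h2 : Rc Φ hd s z y) : z ∈ comp Φ hd s u := by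
  rw [mem_comp] at hx hy ⊢
  exact ⟨hx.1.trans h1, h2.trans hy.2⟩

/-- There is no rainbow closed set with a cell outside `Φ`. -/
def NoEx (H Φ : Finset (R × V)) (hd : R × V → Option V) (s : V → ℕ) : Prop :=
  ∀ C ⊆ H, CSet hd s C → ∀ e ∈ C, e ∈ Φ

theorem NoEx.blocked (hN : NoEx H Φ hd s) (hΦ : Φ ⊆ Fr H) (u : Option V) :
    Blocked H hd s (comp Φ hd s u) := by
  by_contra hB
  obtain ⟨C, h1, ⟨e, h2, h3⟩, h4⟩ := exists_closed_of_not_blocked hΦ
    (fun x hx y hy => comp_conn hx hy) (fun x hx y hy z h1 h2 => comp_conv hx hy h1 h2) hB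
  exact h3 (hN C h1 h4 e h2)

theorem NoEx.inner (hN : NoEx H Φ hd s) (hΦ : Φ ⊆ Fr H) (u : Option V) {e : R × V} (he : e ∈ H)
    (h1 : some e.2 ∈ comp Φ hd s u) (h2 : hd e ∈ comp Φ hd s u) : e ∈ Φ := by
  by_contra hf
  obtain ⟨C, h3, ⟨e', h4, h5⟩, h6⟩ := exists_closed_of_inner hΦ
    (fun x hx y hy => comp_conn hx hy) he hf h1 h2
  exact h5 (hN C h3 h6 e' h4)

variable {sy : R × V → S} {nd : S → Option V} {D w : ℕ} {W : Finset V}

/-- The admissible pairs: a cell of `Φ` in column `v` with symbol `y` inside one component. -/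
def Gd (Φ : Finset (R × V)) (sy : R × V → S) (nd : S → Option V) (s : V → ℕ) (v : V) (y : S) :
    Prop :=
  ∃ r, (r, v) ∈ Φ ∧ sy (r, v) = y ∧ comp Φ (hed sy nd) s (nd y) = comp Φ (hed sy nd) s (some v)

theorem hall_col (h : Cfg H sy nd s D W w) (hΦ : Φ ⊆ Fr H) (hV : 0 < Fintype.card V)
    (hD : Fintype.card V + (w - 1) ≤ D) (hN : NoEx H Φ (hed sy nd) s)
    (X : Finset V) (N : Finset S) (hXN : ∀ v ∈ X, ∀ y, Gd Φ sy nd s v y → y ∈ N) :
    X.card ≤ N.card := by
  classical
  have hD0 : 0 < D := by omega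
  have key : ∀ Q ∈ (Finset.univ : Finset (Option V)).image (comp Φ (hed sy nd) s),
      (X.filter fun v => comp Φ (hed sy nd) s (some v) = Q).card ≤
      (N.filter fun y => comp Φ (hed sy nd) s (nd y) = Q).card := by
    intro Q hQ
    obtain ⟨u, -, rfl⟩ := mem_image.1 hQ
    set Q := comp Φ (hed sy nd) s u with hQdef
    have hout : outQ H (hed sy nd) s Q < D :=
      h.out_lt ⟨u, self_mem_comp u⟩ (hN.blocked hΦ u) hV hD
    set X' := X.filter fun v => comp Φ (hed sy nd) s (some v) = Q with hX'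
    set N' := N.filter fun y => comp Φ (hed sy nd) s (nd y) = Q with hN'
    have e1 : (H.filter fun e => e.2 ∈ X').card = X'.card * D := by
      rw [card_eq_sum_card_fiberwise (s := H.filter fun e => e.2 ∈ X') (f := Prod.snd) (t := X')
        (fun e he => (mem_filter.1 (mem_coe.1 he)).2)]
      have : ∀ v ∈ X', ((H.filter fun e => e.2 ∈ X').filter fun e => e.2 = v).card = D := by
        intro v hv
        rw [← h.col v, filter_filter]
        congr 1
        refine filter_congr fun e _ => ?_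
        constructor
        · exact fun h => h.2
        · exact fun h => ⟨by rw [h]; exact hv, h⟩
      rw [sum_congr rfl this, sum_const, smul_eq_mul]
    have e2 : (H.filter fun e => e.2 ∈ X').card ≤
        (H.filter fun e => some e.2 ∈ Q ∧ hed sy nd e ∉ Q).card +
        (H.filter fun e => sy e ∈ N').card := by
      refine (card_le_card ?_).trans (card_union_le _ _)
      intro e he
      rw [mem_filter] at he
      have hv := (mem_filter.1 he.2).2
      have hvQ : some e.2 ∈ Q := mem_comp_iff.2 hv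
      rw [mem_union, mem_filter, mem_filter]
      by_cases hh : hed sy nd e ∈ Q
      · right
        refine ⟨he.1, mem_filter.2 ⟨?_, mem_comp_iff.1 hh⟩⟩
        refine hXN e.2 (mem_filter.1 he.2).1 _ ⟨e.1, hN.inner hΦ u he.1 hvQ hh, rfl, ?_⟩
        rw [hv]
        exact mem_comp_iff.1 hh
      · left
        exact ⟨he.1, hvQ, hh⟩
    have e3 : (H.filter fun e => sy e ∈ N').card ≤ N'.card * D := by
      rw [card_eq_sum_card_fiberwise (s := H.filter fun e => sy e ∈ N') (f := sy) (t := N')
        (fun e he => (mem_filter.1 (mem_coe.1 he)).2)]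
      refine (sum_le_sum (g := fun _ => D) fun y _ => ?_).trans (by rw [sum_const, smul_eq_mul])
      refine (card_le_card ?_).trans (h.sym y)
      intro e he
      rw [mem_filter, mem_filter] at he
      exact mem_filter.2 ⟨he.1.1, he.2⟩
    have e4 : (H.filter fun e => some e.2 ∈ Q ∧ hed sy nd e ∉ Q).card ≤
        outQ H (hed sy nd) s Q := Nat.le_add_right _ _
    have e5 : X'.card * D < (N'.card + 1) * D := by
      rw [Nat.add_mul, Nat.one_mul]
      omega
    exact Nat.lt_succ_iff.1 (Nat.lt_of_mul_lt_mul_right e5)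
  calc X.card = ∑ Q ∈ (Finset.univ : Finset (Option V)).image (comp Φ (hed sy nd) s),
        (X.filter fun v => comp Φ (hed sy nd) s (some v) = Q).card :=
        card_eq_sum_card_fiberwise (fun v _ => mem_coe.2 (mem_image_of_mem _ (mem_univ _)))
    _ ≤ ∑ Q ∈ (Finset.univ : Finset (Option V)).image (comp Φ (hed sy nd) s),
        (N.filter fun y => comp Φ (hed sy nd) s (nd y) = Q).card := sum_le_sum key
    _ = N.card := (card_eq_sum_card_fiberwise
        (fun v _ => mem_coe.2 (mem_image_of_mem _ (mem_univ _)))).symm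

theorem hall_sym (h : Cfg H sy nd s D W w) (hΦ : Φ ⊆ Fr H) (hV : 0 < Fintype.card V)
    (hD : Fintype.card V + (w - 1) ≤ D) (hN : NoEx H Φ (hed sy nd) s)
    (Y : Finset S) (hY : ∀ y ∈ Y, (H.filter fun e => sy e = y).card = D)
    (N : Finset V) (hYN : ∀ y ∈ Y, ∀ v, Gd Φ sy nd s v y → v ∈ N) :
    Y.card ≤ N.card := by
  classical
  have hD0 : 0 < D := by omega
  have key : ∀ Q ∈ (Finset.univ : Finset (Option V)).image (comp Φ (hed sy nd) s),
      (Y.filter fun y => comp Φ (hed sy nd) s (nd y) = Q).card ≤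
      (N.filter fun v => comp Φ (hed sy nd) s (some v) = Q).card := by
    intro Q hQ
    obtain ⟨u, -, rfl⟩ := mem_image.1 hQ
    set Q := comp Φ (hed sy nd) s u with hQdef
    have hout : outQ H (hed sy nd) s Q < D :=
      h.out_lt ⟨u, self_mem_comp u⟩ (hN.blocked hΦ u) hV hD
    set Y' := Y.filter fun y => comp Φ (hed sy nd) s (nd y) = Q with hY'
    set N' := N.filter fun v => comp Φ (hed sy nd) s (some v) = Q with hN'
    have e1 : (H.filter fun e => sy e ∈ Y').card = Y'.card * D := by
      rw [card_eq_sum_card_fiberwise (s := H.filter fun e => sy e ∈ Y') (f := sy) (t := Y')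
        (fun e he => (mem_filter.1 (mem_coe.1 he)).2)]
      have : ∀ y ∈ Y', ((H.filter fun e => sy e ∈ Y').filter fun e => sy e = y).card = D := by
        intro y hy
        rw [← hY y (mem_filter.1 hy).1, filter_filter]
        congr 1
        refine filter_congr fun e _ => ?_
        constructor
        · exact fun h => h.2
        · exact fun h => ⟨by rw [h]; exact hy, h⟩
      rw [sum_congr rfl this, sum_const, smul_eq_mul]
    have e2 : (H.filter fun e => sy e ∈ Y').card ≤
        (H.filter fun e => some e.2 ∉ Q ∧ hed sy nd e ∈ Q).card +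
        (H.filter fun e => e.2 ∈ N').card := by
      refine (card_le_card ?_).trans (card_union_le _ _)
      intro e he
      rw [mem_filter] at he
      have hv := (mem_filter.1 he.2).2
      have hh : hed sy nd e ∈ Q := mem_comp_iff.2 hv
      rw [mem_union, mem_filter, mem_filter]
      by_cases hvQ : some e.2 ∈ Q
      · right
        refine ⟨he.1, mem_filter.2 ⟨?_, mem_comp_iff.1 hvQ⟩⟩
        refine hYN (sy e) (mem_filter.1 he.2).1 _ ⟨e.1, hN.inner hΦ u he.1 hvQ hh, rfl, ?_⟩
        rw [hv]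
        exact (mem_comp_iff.1 hvQ).symm
      · left
        exact ⟨he.1, hvQ, hh⟩
    have e3 : (H.filter fun e => e.2 ∈ N').card ≤ N'.card * D := by
      rw [card_eq_sum_card_fiberwise (s := H.filter fun e => e.2 ∈ N') (f := Prod.snd) (t := N')
        (fun e he => (mem_filter.1 (mem_coe.1 he)).2)]
      refine (sum_le_sum (g := fun _ => D) fun y _ => ?_).trans (by rw [sum_const, smul_eq_mul])
      refine (card_le_card ?_).trans (h.col y).le
      intro e he
      rw [mem_filter, mem_filter] at he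
      exact mem_filter.2 ⟨he.1.1, he.2⟩
    have e4 := h.in_le_out Q
    have e5 : Y'.card * D < (N'.card + 1) * D := by
      rw [Nat.add_mul, Nat.one_mul]
      omega
    exact Nat.lt_succ_iff.1 (Nat.lt_of_mul_lt_mul_right e5)
  calc Y.card = ∑ Q ∈ (Finset.univ : Finset (Option V)).image (comp Φ (hed sy nd) s),
        (Y.filter fun y => comp Φ (hed sy nd) s (nd y) = Q).card :=
        card_eq_sum_card_fiberwise (fun v _ => mem_coe.2 (mem_image_of_mem _ (mem_univ _)))
    _ ≤ ∑ Q ∈ (Finset.univ : Finset (Option V)).image (comp Φ (hed sy nd) s),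
        (N.filter fun v => comp Φ (hed sy nd) s (some v) = Q).card := sum_le_sum key
    _ = N.card := (card_eq_sum_card_fiberwise
        (fun v _ => mem_coe.2 (mem_image_of_mem _ (mem_univ _)))).symm

/-- A transversal of cells of `Φ` that contains all tight symbols. -/
theorem exists_private_transversal (h : Cfg H sy nd s D W w) (hΦ : Φ ⊆ Fr H)
    (hV : 0 < Fintype.card V) (hD : Fintype.card V + (w - 1) ≤ D)
    (hN : NoEx H Φ (hed sy nd) s) :
    ∃ ρ : V → R, (∀ v, (ρ v, v) ∈ Φ) ∧ Function.Injective (fun v => sy (ρ v, v)) ∧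
      ∀ y, (H.filter fun e => sy e = y).card = D → ∃ v, sy (ρ v, v) = y := by
  obtain ⟨f, hf1, hf2, hf3⟩ := exists_matching (Gd Φ sy nd s)
    (fun y => (H.filter fun e => sy e = y).card = D)
    (fun X N h1 => hall_col h hΦ hV hD hN X N h1)
    (fun Y hY N h1 => hall_sym h hΦ hV hD hN Y hY N h1)
  choose ρ hρ1 hρ2 hρ3 using hf2
  refine ⟨ρ, hρ1, ?_, ?_⟩
  · intro v v' h3
    simp only [hρ2] at h3
    exact hf1 h3
  · intro z hz
    obtain ⟨v, hv⟩ := hf3 z hz
    exact ⟨v, (hρ2 v).trans hv⟩

/-- If there is no exchange, few cells outside `Φ` lead to the hub. -/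
theorem hub_le (h : Cfg H sy nd s D W w) (hΦ : Φ ⊆ Fr H) (hN : NoEx H Φ (hed sy nd) s) :
    ((H \ Φ).filter fun e => nd (sy e) = none).card ≤ Fintype.card V := by
  set Q := comp Φ (hed sy nd) s none with hQ
  have hn : none ∈ Q := self_mem_comp none
  have hB : Blocked H (hed sy nd) s Q := hN.blocked hΦ none
  have h1 := rm_le (hd := hed sy nd) (w := 0) (W := ∅) HubOnly.empty h.col h.ind h.prop
    (fun h0 => absurd hn h0) hB
  have h2 : outQ H (hed sy nd) s Q ≤ cnt (Re H (hed sy nd) s Q Finset.univ) := by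
    have h3 : (outQ H (hed sy nd) s Q : ℝ) ≤ cnt (Re H (hed sy nd) s Q Finset.univ) := by
      have h4 : (0 : ℝ) ≤ cnt (Re H (hed sy nd) s Q ∅) := Nat.cast_nonneg _
      push_cast at h1 ⊢
      linarith
    exact_mod_cast h3
  have h4 : cnt (Re H (hed sy nd) s Q Finset.univ) ≤ _ := cnt_Re_le _
  have h5 := cnt_add Q
  have h6 := h.in_le_out Q
  refine le_trans (card_le_card ?_) (h6.trans (h2.trans (h4.trans (by omega))))
  intro e he
  rw [mem_filter, mem_sdiff] at he
  rw [mem_filter]
  have h7 : hed sy nd e ∈ Q := by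
    unfold hed
    rw [he.2]
    exact hn
  refine ⟨he.1.1, fun h8 => he.1.2 (hN.inner hΦ none he.1.1 h8 h7), h7⟩

/-- A configuration in which the slots are determined by the cells. -/
structure BC (H : Finset (R × V)) (sy : R × V → S) (nd : S → Option V) (D : ℕ)
    (W : Finset V) : Prop where
  col : ∀ v, (H.filter fun e => e.2 = v).card = D
  sym : ∀ y, (H.filter fun e => sy e = y).card ≤ D
  lat : ∀ e ∈ H, ∀ e' ∈ H, e.1 = e'.1 → sy e = sy e' → e = e'
  inj : ∀ y y' v, nd y = some v → nd y' = some v → y = y'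
  noarc : ∀ v ∈ W, ∀ e ∈ H, nd (sy e) ≠ some v

/-- the number of slots -/
def sl (H : Finset (R × V)) (sy : R × V → S) (nd : S → Option V) (D : ℕ) (v : V) : ℕ :=
  D - (H.filter fun e => nd (sy e) = some v).card

theorem BC.ind_le (h : BC H sy nd D W) (v : V) :
    (H.filter fun e => nd (sy e) = some v).card ≤ D := by
  by_cases hex : ∃ e ∈ H, nd (sy e) = some v
  · obtain ⟨e, -, he⟩ := hex
    refine (card_le_card ?_).trans (h.sym (sy e))
    intro e' he'
    rw [mem_filter] at he' ⊢
    exact ⟨he'.1, h.inj _ _ v he'.2 he⟩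
  · push Not at hex
    rw [filter_false_of_mem hex]
    simp

theorem BC.cfg (h : BC H sy nd D W) (hD : 0 < D)
    (hw : ∀ r, (H.filter fun e => e.1 = r ∧ nd (sy e) = none).card ≤ W.card + w) :
    Cfg H sy nd (sl H sy nd D) D W w := by
  refine ⟨h.col, ?_, h.sym, h.lat, h.inj, ⟨?_, ?_⟩, hw⟩
  · intro v
    have := h.ind_le v
    unfold sl
    omega
  · intro v hv
    unfold sl
    rw [filter_false_of_mem (h.noarc v hv)]
    simpa using hD
  · exact h.noarc

theorem BC.hub_le (h : BC H sy nd D W) (hD : 0 < D) (hΦ : Φ ⊆ Fr H)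
    (hN : NoEx H Φ (hed sy nd) (sl H sy nd D)) :
    ((H \ Φ).filter fun e => nd (sy e) = none).card ≤ Fintype.card V := by
  refine V98.hub_le (h.cfg (w := Fintype.card V) hD ?_) hΦ hN
  intro r
  refine le_trans ?_ (Nat.le_add_left _ _)
  rw [← card_univ]
  refine card_le_card_of_injOn Prod.snd (fun _ _ => mem_univ _) ?_
  intro e he e' he' h1
  rw [mem_coe, mem_filter] at he he'
  exact Prod.ext (he.2.1.trans he'.2.1.symm) h1

/-- Many disjoint transversals of cells of `Φ`. -/
theorem BC.many (hV : 0 < Fintype.card V) (t : ℕ) : ∀ (H Φ : Finset (R × V)) (D : ℕ),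
    D = Fintype.card V - 1 + t → BC H sy nd D W →
    (∀ r, (H.filter fun e => e.1 = r ∧ nd (sy e) = none).card ≤ W.card + 1) →
    Φ ⊆ Fr H → NoEx H Φ (hed sy nd) (sl H sy nd D) →
    ∃ ρ : Fin t → V → R, (∀ i v, (ρ i v, v) ∈ Φ) ∧
      (∀ i, Function.Injective fun v => sy (ρ i v, v)) ∧
      (∀ v, Function.Injective fun i => ρ i v) ∧
      (∀ v, ((H \ Finset.univ.image fun p : Fin t × V => (ρ p.1 p.2, p.2)).filter
        fun e => e.2 = v).card = Fintype.card V - 1) ∧
      ∀ y, ((H \ Finset.univ.image fun p : Fin t × V => (ρ p.1 p.2, p.2)).filter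
        fun e => sy e = y).card ≤ Fintype.card V - 1 := by
  classical
  induction t with
  | zero =>
    intro H Φ D hD h hw hΦ hN
    refine ⟨fun i => i.elim0, fun i => i.elim0, fun i => i.elim0, fun v i => i.elim0, ?_, ?_⟩
    · intro v
      have := h.col v
      simpa [hD] using this
    · intro y
      have := h.sym y
      simpa [hD] using this
  | succ t ih =>
    intro H Φ D hD h hw hΦ hN
    have hD1 : 0 < D := by omega
    obtain ⟨ρ, h1, h2, h3⟩ := exists_private_transversal (h.cfg hD1 hw) hΦ hV (by omega) hN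
    set M : Finset (R × V) := Finset.univ.image fun v => (ρ v, v) with hM
    have hmem : ∀ e, e ∈ M ↔ ρ e.2 = e.1 := by
      intro e
      rw [hM, mem_image]
      constructor
      · rintro ⟨v, -, rfl⟩
        rfl
      · intro h4
        exact ⟨e.2, mem_univ _, Prod.ext h4 rfl⟩
    have hMΦ : M ⊆ Φ := by
      intro e he
      rw [hmem] at he
      have : (ρ e.2, e.2) = e := Prod.ext he rfl
      exact this ▸ h1 e.2
    have hMH : M ⊆ H := hMΦ.trans (hΦ.trans Fr_subset)
    -- the symbols of `M`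
    have hMsym : ∀ y, (M.filter fun e => sy e = y).card ≤ 1 := by
      intro y
      rw [card_le_one]
      intro e he e' he'
      rw [mem_filter, hmem] at he he'
      have h4 : sy (ρ e.2, e.2) = sy (ρ e'.2, e'.2) := by
        rw [he.1, he'.1]
        exact he.2.trans he'.2.symm
      have h5 : e.2 = e'.2 := h2 h4
      exact Prod.ext (by rw [← he.1, ← he'.1, h5]) h5
    have hBC : BC (H \ M) sy nd (D - 1) W := by
      refine ⟨?_, ?_, ?_, h.inj, ?_⟩
      · intro v
        have h4 : ((H \ M).filter fun e => e.2 = v) =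
            (H.filter fun e => e.2 = v).erase (ρ v, v) := by
          ext e
          simp only [mem_filter, mem_sdiff, mem_erase, hmem]
          constructor
          · rintro ⟨⟨h5, h6⟩, h7⟩
            refine ⟨?_, h5, h7⟩
            rintro rfl
            exact h6 rfl
          · rintro ⟨h5, h6, h7⟩
            refine ⟨⟨h6, ?_⟩, h7⟩
            intro h8
            apply h5
            rw [← h7, h8]
        have h5 : (ρ v, v) ∈ H.filter fun e => e.2 = v :=
          mem_filter.2 ⟨Fr_subset (hΦ (h1 v)), rfl⟩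
        rw [h4, card_erase_of_mem h5, h.col v]
      · intro y
        have hsub : ((H \ M).filter fun e => sy e = y) ⊆ H.filter fun e => sy e = y :=
          filter_subset_filter _ sdiff_subset
        have hle := card_le_card hsub
        rcases Nat.lt_or_ge ((H.filter fun e => sy e = y).card) D with h4 | h4
        · omega
        · obtain ⟨v, hv⟩ := h3 y (le_antisymm (h.sym y) h4)
          have h7 : ((H \ M).filter fun e => sy e = y).card <
              (H.filter fun e => sy e = y).card := by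
            refine card_lt_card ⟨hsub, fun h8 => ?_⟩
            have h9 := h8 (mem_filter.2 ⟨Fr_subset (hΦ (h1 v)), hv⟩)
            exact (mem_sdiff.1 (mem_filter.1 h9).1).2 ((hmem _).2 rfl)
          have := h.sym y
          omega
      · intro e he e' he'
        exact h.lat e (mem_sdiff.1 he).1 e' (mem_sdiff.1 he').1
      · intro v hv e he
        exact h.noarc v hv e (mem_sdiff.1 he).1
    have hw' : ∀ r, ((H \ M).filter fun e => e.1 = r ∧ nd (sy e) = none).card ≤ W.card + 1 :=
      fun r => (card_le_card (filter_subset_filter _ sdiff_subset)).trans (hw r)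
    have hΦ' : Φ \ M ⊆ Fr (H \ M) := by
      intro e he
      obtain ⟨h4, h5⟩ := mem_sdiff.1 he
      obtain ⟨h6, h7⟩ := mem_Fr.1 (hΦ h4)
      exact mem_Fr.2 ⟨mem_sdiff.2 ⟨h6, h5⟩, fun e' he' => h7 e' (mem_sdiff.1 he').1⟩
    -- the slots do not grow
    have hsl : ∀ v, 0 < sl (H \ M) sy nd (D - 1) v → 0 < sl H sy nd D v := by
      intro v hv
      unfold sl at hv ⊢
      have h4 : (H.filter fun e => nd (sy e) = some v).card ≤
          ((H \ M).filter fun e => nd (sy e) = some v).card +
            (M.filter fun e => nd (sy e) = some v).card := by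
        refine (card_le_card ?_).trans (card_union_le _ _)
        intro e he
        rw [mem_filter] at he
        rw [mem_union, mem_filter, mem_filter, mem_sdiff]
        by_cases h5 : e ∈ M
        · exact Or.inr ⟨h5, he.2⟩
        · exact Or.inl ⟨⟨he.1, h5⟩, he.2⟩
      have h5 : (M.filter fun e => nd (sy e) = some v).card ≤ 1 := by
        rw [card_le_one]
        intro e he e' he'
        rw [mem_filter] at he he'
        have h6 := card_le_one.1 (hMsym (sy e))
        exact h6 e (mem_filter.2 ⟨he.1, rfl⟩) e'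
          (mem_filter.2 ⟨he'.1, h.inj _ _ v he'.2 he.2⟩)
      omega
    have hN' : NoEx (H \ M) (Φ \ M) (hed sy nd) (sl (H \ M) sy nd (D - 1)) := by
      intro C hC hCS e he
      refine mem_sdiff.2 ⟨hN C (hC.trans sdiff_subset)
        ⟨hCS.rb, hCS.tl, hCS.hdi, hCS.cl, fun e he h4 => hsl _ (hCS.st e he h4)⟩ e he,
        (mem_sdiff.1 (hC he)).2⟩
    obtain ⟨ρ', g1, g2, g3, g4, g5⟩ := ih (H \ M) (Φ \ M) (D - 1) (by omega) hBC hw' hΦ' hN'
    have hne : ∀ i v, ρ v ≠ ρ' i v := by
      intro i v h4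
      have h5 := (mem_sdiff.1 (g1 i v)).2
      exact h5 ((hmem _).2 h4)
    have himg : (Finset.univ.image fun p : Fin (t + 1) × V =>
        ((Fin.cons ρ ρ' : Fin (t + 1) → V → R) p.1 p.2, p.2)) =
        M ∪ Finset.univ.image fun p : Fin t × V => (ρ' p.1 p.2, p.2) := by
      ext e
      rw [mem_union, mem_image, hmem, mem_image]
      constructor
      · rintro ⟨⟨i, v⟩, -, rfl⟩
        refine Fin.cases ?_ (fun j => ?_) i
        · left
          rfl
        · right
          exact ⟨(j, v), mem_univ _, rfl⟩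
      · rintro (h4 | ⟨⟨i, v⟩, -, rfl⟩)
        · exact ⟨(0, e.2), mem_univ _, Prod.ext h4 rfl⟩
        · exact ⟨(i.succ, v), mem_univ _, rfl⟩
    have hsd : H \ (Finset.univ.image fun p : Fin (t + 1) × V =>
        ((Fin.cons ρ ρ' : Fin (t + 1) → V → R) p.1 p.2, p.2)) =
        (H \ M) \ Finset.univ.image fun p : Fin t × V => (ρ' p.1 p.2, p.2) := by
      rw [himg]
      ext e
      simp only [mem_sdiff, mem_union]
      tauto
    refine ⟨Fin.cons ρ ρ', ?_, ?_, ?_, ?_, ?_⟩
    · intro i
      refine Fin.cases ?_ (fun j => ?_) i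
      · exact h1
      · intro v
        exact (mem_sdiff.1 (g1 j v)).1
    · intro i
      refine Fin.cases ?_ (fun j => ?_) i
      · exact h2
      · exact g2 j
    · intro v i
      refine Fin.cases ?_ (fun j => ?_) i
      · intro i'
        refine Fin.cases ?_ (fun j' => ?_) i'
        · intro _
          rfl
        · intro h4
          exact absurd h4 (hne j' v)
      · intro i'
        refine Fin.cases ?_ (fun j' => ?_) i'
        · intro h4
          exact absurd h4.symm (hne j v)
        · intro h4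
          have h5 : ρ' j v = ρ' j' v := h4
          exact congrArg Fin.succ (g3 v h5)
    · intro v
      rw [hsd]
      exact g4 v
    · intro y
      rw [hsd]
      exact g5 y

end Pool.Agent.V98
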